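import Pool.Agent.MP_bc14f3_gt.Mg.Main

/-! The classical converse: the Alexander polynomial of an alternating knot has value `±1` at `1`
and no negative real root. -/

set_option autoImplicit false

namespace Pool.Agent.MP_bc14f3_gt.Z66

open Polynomial Finset

theorem conv_rows {F ι ρ : Type} [Field F] [Fintype ι] [DecidableEq ι] (M : ρ → ι → F)
    (h : ∀ v : ι → F, (∀ r, ∑ j, M r j * v j = 0) → v = 0) :
    ∃ f : ι → ρ, (Matrix.of fun i j => M (f i) j).det ≠ 0 := by
  have hs : Submodule.span F (Set.range M) = ⊤ := by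
    by_contra hn
    obtain ⟨φ, h0, h1⟩ := Submodule.exists_le_ker_of_lt_top _ (lt_top_iff_ne_top.2 hn)
    have h2 := h (fun j => φ fun k => if j = k then 1 else 0) fun r => by
      have := h1 (Submodule.subset_span ⟨r, rfl⟩)
      rw [LinearMap.mem_ker, LinearMap.pi_apply_eq_sum_univ] at this
      simpa using this
    refine h0 (LinearMap.ext fun x => ?_)
    rw [LinearMap.pi_apply_eq_sum_univ]
    exact Finset.sum_eq_zero fun j _ => by rw [congrFun h2 j]; simp
  obtain ⟨b, hb, h1, h2⟩ := exists_linearIndependent F (Set.range M)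
  let B : Module.Basis b F (ι → F) := Module.Basis.mk h2 (by
    rw [Subtype.range_coe_subtype, Set.ofPred_mem_eq, h1, hs])
  let e : ι ≃ b := (Pi.basisFun F ι).indexEquiv B
  choose g hg using fun x : b => hb x.2
  refine ⟨fun i => g (e i), ?_⟩
  have h3 : LinearIndependent F (Matrix.of fun i j => M (g (e i)) j).row := by
    have h4 : (Matrix.of fun i j => M (g (e i)) j).row = (fun x : b => (x : ι → F)) ∘ e :=
      funext fun i => hg (e i)
    rw [h4]
    exact h2.comp e e.injective
  exact ((Matrix.isUnit_iff_isUnit_det _).1 (Matrix.linearIndependent_rows_iff_isUnit.1 h3)).ne_zero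

variable {w : List Move}

theorem conv_minor {F : Type} [Field F] (o : Pt w → Bool) (p : Pt w) (α : F)
    (h : ∀ v : Pt w → F, (∀ a b c, Rel o a b c → v c = α * v b + (1 - α) * v a) →
      ∀ q, v q = v p) : ∃ f, aeval α (minor o p f) ≠ 0 := by
  classical
  obtain ⟨f, hf⟩ := conv_rows (fun (r : Row o) (j : {q // q ≠ p}) => aeval α (entry o r j))
    fun v hv => by
      have h1 := h (fun q => if h : q = p then 0 else v ⟨q, h⟩) fun a b c hr => by
        obtain ⟨r, rfl, rfl, rfl⟩ : ∃ r : Row o, r.1.1 = a ∧ r.1.2.1 = b ∧ r.1.2.2 = c :=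
          ⟨⟨(a, b, c), hr⟩, rfl, rfl, rfl⟩
        have h3 := Fintype.sum_eq_add_sum_subtype_ne (fun j => aeval α (entry o r j) *
          (if h : j = p then 0 else v ⟨j, h⟩)) p
        have h4 : ∑ i : {q // q ≠ p}, aeval α (entry o r i) *
            (if h : (i : Pt w) = p then 0 else v ⟨i, h⟩) = 0 :=
          (Finset.sum_congr rfl fun j _ => by rw [dif_neg j.2]).trans (hv r)
        rw [h4] at h3
        simp only [entry, mul_ite, mul_one, mul_zero, aeval_sub, apply_ite (aeval α), map_one,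
          map_zero, aeval_X, sub_mul, ite_mul, one_mul, zero_mul, Finset.sum_sub_distrib,
          Finset.sum_ite_eq', Finset.mem_univ, ↓reduceIte, ↓reduceDIte, add_zero] at h3
        linear_combination h3
      funext ⟨q, hq⟩
      simpa [hq] using h1 q
  refine ⟨f, ?_⟩
  rw [minor, AlgHom.map_det]
  exact hf

theorem conv_one {o : Pt w → Bool} {D : ℤ[X]} (hk : IsKnot w) (hD : IsAlexander o D) :
    D.eval 1 = 1 ∨ D.eval 1 = -1 := by
  obtain ⟨p⟩ := hk.2.1
  by_contra hn
  obtain ⟨q, hq, hd⟩ := Int.exists_prime_and_dvd (n := D.eval 1) fun h =>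
    hn (Int.isUnit_iff.1 (Int.isUnit_iff_natAbs_eq.2 h))
  have : Fact q.natAbs.Prime := ⟨Int.prime_iff_natAbs_prime.1 hq⟩
  obtain ⟨f, hf⟩ := conv_minor o p (1 : ZMod q.natAbs) fun v hv x => by
    induction hk.2.2 x p with
    | rel a b h =>
      obtain ⟨c, h | h⟩ := h.rel o
      · simpa using (hv _ _ _ h).symm
      · simpa using hv _ _ _ h
    | refl a => rfl
    | symm a b _ ih => exact ih.symm
    | trans a b c _ _ h1 h2 => exact h1.trans h2
  obtain ⟨r, hr⟩ := (hD D).1 dvd_rfl p f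
  refine hf ?_
  have h1 : aeval (1 : ZMod q.natAbs) D = 0 := by
    have h2 : aeval (1 : ZMod q.natAbs) D = ((D.eval 1 : ℤ) : ZMod q.natAbs) := by
      simpa using aeval_algebraMap_apply_eq_algebraMap_eval (A := ZMod q.natAbs) (1 : ℤ) D
    rw [h2, ZMod.intCast_zmod_eq_zero_iff_dvd]
    exact Int.natAbs_dvd.2 hd
  rw [hr, map_mul, h1, zero_mul]

theorem conv_sum (A B : ℕ → ℤ) (i n : ℕ) (hi : i ≤ n) (h1 : ∀ j < i, B j = A j)
    (h2 : ∀ j, i ≤ j → j < n → B (j + 2) = A j) :
    ∑ j ∈ range (n + 2), B j = ∑ j ∈ range n, A j + B i + B (i + 1) := by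
  induction n, hi using Nat.le_induction with
  | base =>
    rw [sum_range_succ, sum_range_succ, sum_congr rfl fun j hj => h1 j (mem_range.1 hj)]
  | succ n hn ih =>
    rw [sum_range_succ B (n + 2), ih fun j a b => h2 j a (by omega), sum_range_succ A n,
      h2 n hn (by omega)]
    ring

theorem conv_width (k : ℕ) (m : Move) (hm : w[k]? = some m) :
    width w (k + 1) = m.top (width w k) := by
  simp [width, List.take_add_one, hm]

theorem conv_pt (k j : ℕ) (hk : k ≤ w.length) (hj : j < width w k) :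
    ∃ p : Pt w, (p.1 : ℕ) = k ∧ (p.2 : ℕ) = j :=
  ⟨⟨⟨k, by omega⟩, ⟨j, hj⟩⟩, rfl, rfl⟩

theorem conv_flow (hc : Closed w) (ha : IsAlternating w) (φ : Pt w → ℤ)
    (h1 : ∀ p q, Thru p q → φ p = φ q) (h2 : ∀ p q, Turn p q → φ p = φ q)
    (h3 : ∀ b a a' u u', Cross b a a' u u' → φ a' = φ a ∧ 2 * φ a ≤ φ u + φ u') :
    ∀ b a a' u u', Cross b a a' u u' → 2 * φ a = φ u + φ u' := by
  obtain ⟨h, a1, a2, a3⟩ := ha
  obtain ⟨e, he⟩ : ∃ e : ℕ → ℕ → ℤ, ∀ (p : Pt w) (k j : ℕ), (p.1 : ℕ) = k → (p.2 : ℕ) = j →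
      e k j = if h p then φ p else -φ p := by
    refine ⟨fun k j => if hk : k < w.length + 1 then if hj : j < width w k then
      (if h ⟨⟨k, hk⟩, ⟨j, hj⟩⟩ then φ ⟨⟨k, hk⟩, ⟨j, hj⟩⟩ else -φ ⟨⟨k, hk⟩, ⟨j, hj⟩⟩) else 0 else 0, ?_⟩
    rintro ⟨⟨k, hk⟩, ⟨j, hj⟩⟩ _ _ rfl rfl
    exact (dif_pos hk).trans (dif_pos hj)
  have lt : ∀ k m, w[k]? = some m → k + 1 ≤ w.length := fun k m hm =>
    (List.getElem?_eq_some_iff.1 hm).1
  have th : ∀ k (m : Move) j j', w[k]? = some m → m.Thru j j' → j < width w k →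
      j' < width w (k + 1) → e (k + 1) j' = e k j := by
    intro k m j j' hm ht hj hj'
    have := lt k m hm
    obtain ⟨p, p1, p2⟩ := conv_pt k j (by omega) hj
    obtain ⟨q, q1, q2⟩ := conv_pt (k + 1) j' this hj'
    have t : Thru p q := ⟨m, p1 ▸ hm, by omega, p2 ▸ q2 ▸ ht⟩
    rw [he p _ _ p1 p2, he q _ _ q1 q2, a1 p q t, h1 p q t]
  have tu : ∀ k i, k ≤ w.length → i + 1 < width w k →
      (w[k]? = some (.cap i) ∨ ∃ k', k = k' + 1 ∧ w[k']? = some (.cup i)) →
      e k i + e k (i + 1) = 0 := by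
    intro k i hk hi hm
    obtain ⟨p, p1, p2⟩ := conv_pt k i hk (by omega)
    obtain ⟨q, q1, q2⟩ := conv_pt k (i + 1) hk hi
    have t : Turn p q := ⟨by omega, by omega, by rw [p2, p1]; exact hm⟩
    have := a2 p q t
    rw [he p _ _ p1 p2, he q _ _ q1 q2, h2 p q t]
    cases hp : h p <;> cases hq : h q <;> simp_all
  have cr : ∀ b a a' u u', Cross b a a' u u' → ∑ j ∈ range (width w (a.1 + 1)), e (a.1 + 1) j =
      ∑ j ∈ range (width w a.1), e a.1 j + (φ u + φ u' - 2 * φ a) := by
    intro b a a' u u' H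
    obtain ⟨s1, s2, s3, s4⟩ := a3 b a a' u u' H
    have s5 := (h3 b a a' u u' H).1
    obtain ⟨k, i, hm, c1, c2, c3, c4, c5, c6, c7, c8⟩ := H
    have hf : i + 2 ≤ width w k := hc.1 k _ hm
    have hw : width w (k + 1) = width w k := conv_width k _ hm
    obtain ⟨n, hn⟩ : ∃ n, width w k = n + 2 := ⟨width w k - 2, by omega⟩
    have t1 := conv_sum (fun j => if j < i then e k j else e k (j + 2)) (e k) i n (by omega)
      (fun j hj => by simp [hj]) fun j hj _ => by simp [not_lt.2 hj]
    have t2 := conv_sum (fun j => if j < i then e k j else e k (j + 2)) (e (k + 1)) i n (by omega)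
      (fun j hj => by
        rw [if_pos hj]
        exact th k _ j j hm ⟨by omega, by omega, rfl⟩ (by omega) (by omega))
      fun j hj _ => by
        rw [if_neg (not_lt.2 hj)]
        exact th k _ _ _ hm ⟨by omega, by omega, rfl⟩ (by omega) (by omega)
    have e1 := he a _ _ c1 c5
    have e2 := he a' _ _ c3 (c8.trans c7)
    have e3 := he u _ _ c2 c7
    have e4 := he u' _ _ c4 (c6.trans c5)
    rw [c1, hw, hn, t1, t2]
    cases b <;> simp only [s1, s2, s3, s4, Bool.false_eq_true, ↓reduceIte] at e1 e2 e3 e4 <;> omega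
  have mo : ∀ k, k < w.length → ∑ j ∈ range (width w k), e k j ≤
      ∑ j ∈ range (width w (k + 1)), e (k + 1) j := by
    intro k hk
    obtain ⟨m, hm⟩ : ∃ m, w[k]? = some m := ⟨_, List.getElem?_eq_getElem hk⟩
    have hf := hc.1 k m hm
    have hw := conv_width k m hm
    cases m with
    | cup i =>
      simp only [Move.Fits, Move.top] at hf hw
      have t := conv_sum (e k) (e (k + 1)) i (width w k) hf
        (fun j hj => th k _ j j hm (Or.inl ⟨hj, rfl⟩) (by omega) (by omega))
        fun j hj hj' => th k _ j _ hm (Or.inr ⟨hj, rfl⟩) hj' (by omega)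
      have := tu (k + 1) i hk (by omega) (Or.inr ⟨k, rfl, hm⟩)
      rw [hw, t]
      omega
    | cap i =>
      simp only [Move.Fits, Move.top] at hf hw
      have t := conv_sum (e (k + 1)) (e k) i (width w (k + 1)) (by omega)
        (fun j hj => (th k _ j j hm (Or.inl ⟨hj, rfl⟩) (by omega) (by omega)).symm)
        fun j hj hj' => (th k _ _ j hm (Or.inr ⟨by omega, rfl⟩) (by omega) hj').symm
      have := tu k i hk.le (by omega) (Or.inl hm)
      rw [show width w k = width w (k + 1) + 2 by omega, t]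
      omega
    | cross i b =>
      simp only [Move.Fits, Move.top] at hf hw
      obtain ⟨a, b1, b2⟩ := conv_pt k (if b then i + 1 else i) hk.le (by split_ifs <;> omega)
      obtain ⟨u, c1, c2⟩ := conv_pt k (if b then i else i + 1) hk.le (by split_ifs <;> omega)
      obtain ⟨a', d1, d2⟩ := conv_pt (k + 1) (if b then i else i + 1) hk (by split_ifs <;> omega)
      obtain ⟨u', f1, f2⟩ := conv_pt (k + 1) (if b then i + 1 else i) hk (by split_ifs <;> omega)
      have H : Cross b a a' u u' := ⟨k, i, hm, b1, c1, d1, f1, b2, f2.trans b2.symm, c2,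
        d2.trans c2.symm⟩
      have t := cr b a a' u u' H
      have := (h3 b a a' u u' H).2
      rw [b1] at t
      omega
  have up : ∀ k l, k ≤ l → l ≤ w.length → ∑ j ∈ range (width w k), e k j ≤
      ∑ j ∈ range (width w l), e l j := by
    intro k l hkl
    induction l, hkl using Nat.le_induction with
    | base => exact fun _ => le_rfl
    | succ l _ ih => exact fun hl => (ih (by omega)).trans (mo l hl)
  intro b a a' u u' H
  have t := cr b a a' u u' H
  have := (h3 b a a' u u' H).2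
  obtain ⟨k, i, hm, c1, -⟩ := H
  have t1 := up 0 k (by omega) (by have := lt k _ hm; omega)
  have t2 := up (k + 1) w.length (lt k _ hm) le_rfl
  rw [hc.2, sum_range_zero] at t2
  rw [show width w 0 = 0 from rfl, sum_range_zero] at t1
  rw [c1] at t
  omega

theorem conv_neg {o : Pt w → Bool} {D : ℤ[X]} (hk : IsKnot w) (ha : IsAlternating w)
    (hD : IsAlexander o D) (x : ℝ) (hx : x < 0) : aeval x D ≠ 0 := by
  classical
  obtain ⟨p⟩ := hk.2.1
  obtain ⟨f, hf⟩ := conv_minor o p x fun v hv y => by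
    obtain ⟨z, -, hz⟩ := Finset.exists_max_image univ v ⟨p, mem_univ p⟩
    have e1 : ∀ p q, Thru p q ∨ Turn p q → v p = v q := fun p q h => by
      rw [hv p p q (Or.inl ⟨rfl, h⟩)]
      ring
    have e2 : ∀ b a a' u u', Cross b a a' u u' → v a' = v a := fun b a a' u u' H => by
      rw [hv a a a' (Or.inr ⟨b, a', u, u', H, Or.inl ⟨rfl, rfl⟩⟩)]
      ring
    have e3 : ∀ b a a' u u', Cross b a a' u u' → v a = v z → v u = v z ∧ v u' = v z := by
      intro b a a' u u' H h0
      have h1 := hz u (mem_univ _)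
      have h2 := hz u' (mem_univ _)
      by_cases hb : b = o a
      · have := hv a u u' (Or.inr ⟨b, a', u, u', H, Or.inr (Or.inl ⟨hb, rfl, rfl⟩)⟩)
        constructor <;> nlinarith
      · have := hv a u' u (Or.inr ⟨b, a', u, u', H, Or.inr (Or.inr ⟨hb, rfl, rfl⟩)⟩)
        constructor <;> nlinarith
    have e4 := conv_flow hk.1 ha (fun q => if v q = v z then 1 else 0)
      (fun p q h => by rw [e1 p q (Or.inl h)]) (fun p q h => by rw [e1 p q (Or.inr h)])
      fun b a a' u u' H => ⟨by rw [e2 b a a' u u' H], by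
        by_cases h0 : v a = v z
        · simp [h0, e3 b a a' u u' H h0]
        · simp only [h0, ↓reduceIte]
          split_ifs <;> omega⟩
    have e5 : ∀ p q : Pt w, Relation.EqvGen Join p q → (v p = v z ↔ v q = v z) := by
      intro p q h
      induction h with
      | rel a b h =>
        rcases h with h | h | ⟨s, c, d, h | h⟩
        · rw [e1 a b (Or.inl h)]
        · rw [e1 a b (Or.inr h)]
        · rw [e2 _ _ _ _ _ h]
        · have := e4 _ _ _ _ _ h
          by_cases h1 : v a = v z <;> by_cases h2 : v b = v z <;>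
            simp only [h1, h2, ↓reduceIte] at this ⊢ <;> split_ifs at this <;> omega
      | refl a => rfl
      | symm a b _ ih => exact ih.symm
      | trans a b c _ _ h1 h2 => exact h1.trans h2
    rw [(e5 z y (hk.2.2 z y)).1 rfl, (e5 z p (hk.2.2 z p)).1 rfl]
  obtain ⟨r, hr⟩ := (hD D).1 dvd_rfl p f
  intro h
  exact hf (by rw [hr, map_mul, h, zero_mul])

end Pool.Agent.MP_bc14f3_gt.Z66
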