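import Pool.Agent.MP_bc14f3_gt.Mg.Main

/-! The exact zero set of Alexander polynomials of alternating knots: statements of the steps. -/

set_option autoImplicit false

namespace Pool.Agent.MP_bc14f3_gt.Z66

open Filter Topology Polynomial

noncomputable section

def TT {R : Type} [CommRing R] (u v : R) : Bool → R := fun b => if b then -u else -v

section
variable {ι : Type} [Fintype ι]

/-- The rules of the tangle calculus, seen in `ι → ℂ`. -/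
structure Sys (TP : Bool → Set (ι → ℂ))
    (BP : Bool → Set ((ι → ℂ) × (ι → ℂ) × (ι → ℂ) × (ι → ℂ))) (u v g : ι → ℂ) : Prop where
  nil : 0 ∈ TP true
  clasp : 1 + v ∈ TP true
  ser : ∀ κ ρ ρ', ρ ∈ TP true → ρ' ∈ TP κ → ρ + ρ' ∈ TP κ
  par : ∀ κ ρ ρ' r, ρ ∈ TP κ → ρ' ∈ TP false → (ρ + ρ') * r = 1 → ρ * ρ' * r ∈ TP κ
  base : ∀ (κ : Bool) (n n' : ℕ), n % 2 = 1 → n' % 2 = (if κ then 0 else 1) →
    (u * g * (v ^ n * v ^ n' - 1), u * g * (1 - v ^ n'), g * (1 - v ^ n), 0) ∈ BP κ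
  step : ∀ κ α β a b ρ r (n : ℕ), (α, β, a, b) ∈ BP κ → ρ ∈ TP true → (1 - ρ * α) * r = 1 →
    (u * g * (v ^ (2 * n) * v ^ (2 * n) * (1 + (1 - v) * α * r) - 1),
      u * g * (1 - v ^ (2 * n) * (1 - (1 - v) * β * r)), a * r * v ^ (2 * n) + g * (1 - v ^ (2 * n)),
      b + a * r * ρ * β) ∈ BP κ
  top : ∀ κ α β a b r, (α, β, a, b) ∈ BP κ → α * r = 1 → b - a * r * β ∈ TP κ

/-- `e` is the indicator of the unimodular coordinates. -/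
structure Dat (u v g e : ι → ℂ) : Prop where
  uv : u * v = 1
  gu : g * (u - 1) = 1
  ne : ∀ i, 1 + v i ≠ 0
  ind : ∀ i, (e i = 1 ∧ ‖v i‖ = 1) ∨ (e i = 0 ∧ ‖v i‖ < 1)

def Gd (TP : Bool → Set (ι → ℂ)) (ρ : ι → ℂ) : Prop := ∀ κ, ρ ∈ closure (TP κ)

/-- Closure rules for limits of values of both types. -/
structure Cl (TP : Bool → Set (ι → ℂ)) : Prop where
  cls : IsClosed {x | Gd TP x}
  add : ∀ x y, Gd TP x → Gd TP y → Gd TP (x + y)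
  par : ∀ x y r, Gd TP x → Gd TP y → (x + y) * r = 1 → Gd TP (x * y * r)
  smul : ∀ x (c : ℝ), Gd TP x → IsUnit x → 0 < c → Gd TP ((c : ℂ) • x)
  ofA : ∀ x, x ∈ closure (TP true) → Gd TP x
  ofB : ∀ x, x ∈ closure (TP false) → IsUnit x → Gd TP x

/-- Complex conjugation on the coordinates; `y = u g²`. -/
structure Eqv (u g e : ι → ℂ) (c : ι → ι) : Prop where
  ec : ∀ i, e (c i) = e i
  uc : ∀ i, e i = 0 → u (c i) = (starRingEnd ℂ) (u i)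
  yc : ∀ i, (u * g * g) (c i) = (starRingEnd ℂ) ((u * g * g) i)
  inj : Function.Injective (u * g * g)
  pos : ∀ i, ¬(((u * g * g) i).im = 0 ∧ 0 ≤ ((u * g * g) i).re)

def Rec (v e : ι → ℂ) : Prop := e ∈ closure (Set.range fun n : ℕ => v ^ (2 * n + 2))

def Chan (TP : Bool → Set (ι → ℂ)) (u g e : ι → ℂ) : Prop := ∀ (ρ r : ι → ℂ) (N : ℕ),
  ρ ∈ closure (TP true) → ρ * e = 0 → (1 + ρ * (u * g)) * r = 1 →
    (1 - e) * g + (N : ℂ) • (g * r * ρ * (u * g)) ∈ closure (TP true)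

def Scal (TP : Bool → Set (ι → ℂ)) (e : ι → ℂ) : Prop := ∀ (x : ι → ℂ) (c : ℝ),
  Gd TP x → x * e = 0 → IsUnit (x + e) → 0 < c → Gd TP ((c : ℂ) • x)

def Pow (TP : Bool → Set (ι → ℂ)) (u g e : ι → ℂ) : Prop :=
  ∀ k : ℕ, Gd TP ((1 - e) * g * (u * g * g) ^ k)

def Off (TP : Bool → Set (ι → ℂ)) (u g e : ι → ℂ) : Prop :=
  ∀ P : ℝ[X], Gd TP fun i => (1 - e i) * g i * aeval ((u * g * g) i) P

def Neg (TP : Bool → Set (ι → ℂ)) (u v g e : ι → ℂ) : Prop :=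
  (1 - e) * g - e * (1 + v) ∈ closure (TP true) ∧
    (1 - e) * g - e * (1 + u)⁻¹ ∈ closure (TP false) ∧ (1 + u)⁻¹ ∈ TP false

def Four (TP : Bool → Set (ι → ℂ)) (u v : ι → ℂ) : Prop :=
  Gd TP (1 + v) ∧ Gd TP (-(1 + v)) ∧ Gd TP (1 + u)⁻¹ ∧ Gd TP (-(1 + u)⁻¹)

def All (TP : Bool → Set (ι → ℂ)) (u v : ι → ℂ) : Prop := ∀ k : ℤ,
  Gd TP (fun i => (1 + v i) * (u i + 2 + v i) ^ k) ∧
    Gd TP (fun i => -((1 + v i) * (u i + 2 + v i) ^ k))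

end

abbrev Q4 (ι : Type) : Type := (ι → ℂ) × (ι → ℂ) × (ι → ℂ) × (ι → ℂ)

def REC_s : Prop := ∀ (ι : Type) [Fintype ι] (u v g e : ι → ℂ), Dat u v g e → Rec v e

def BAS_s : Prop := ∀ (ι : Type) [Fintype ι] (TP : Bool → Set (ι → ℂ)) (BP : Bool → Set (Q4 ι))
  (u v g e : ι → ℂ), Sys TP BP u v g → Dat u v g e → (1 + u)⁻¹ ∈ TP false → Cl TP

def CHAN_s : Prop := ∀ (ι : Type) [Fintype ι] (TP : Bool → Set (ι → ℂ)) (BP : Bool → Set (Q4 ι))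
  (u v g e : ι → ℂ), Sys TP BP u v g → Dat u v g e → Rec v e → Chan TP u g e

def NEG_s : Prop := ∀ (ι : Type) [Fintype ι] (TP : Bool → Set (ι → ℂ)) (BP : Bool → Set (Q4 ι))
  (u v g e : ι → ℂ), Sys TP BP u v g → Dat u v g e → Rec v e → Neg TP u v g e

def SCAL_s : Prop := ∀ (ι : Type) [Fintype ι] (TP : Bool → Set (ι → ℂ)) (u v g e : ι → ℂ),
  Cl TP → Dat u v g e → Gd TP (1 + v) → Scal TP e

def POW_s : Prop := ∀ (ι : Type) [Fintype ι] (TP : Bool → Set (ι → ℂ)) (u v g e : ι → ℂ),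
  Cl TP → Dat u v g e → 0 ∈ TP true → Chan TP u g e → Scal TP e → Pow TP u g e

def POS_s : Prop := ∀ (ι : Type) [Fintype ι] (y : ι → ℂ), (∀ i, ¬((y i).im = 0 ∧ 0 ≤ (y i).re)) →
  ∃ h : ℝ[X], (∀ k, 0 ≤ h.coeff k) ∧ ∀ i, aeval (y i) h = -1

def INT_s : Prop := ∀ (ι : Type) [Fintype ι] (y F : ι → ℂ) (c : ι → ι), Function.Injective y →
  (∀ i, y (c i) = (starRingEnd ℂ) (y i)) → (∀ i, F (c i) = (starRingEnd ℂ) (F i)) →
    ∃ P : ℝ[X], ∀ i, aeval (y i) P = F i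

def OFF_s : Prop := ∀ (ι : Type) [Fintype ι] (TP : Bool → Set (ι → ℂ)) (u v g e : ι → ℂ)
  (c : ι → ι), Cl TP → Dat u v g e → Eqv u g e c → 0 ∈ TP true → Scal TP e → Pow TP u g e →
    Off TP u g e

def FOUR_s : Prop := ∀ (ι : Type) [Fintype ι] (TP : Bool → Set (ι → ℂ)) (u v g e : ι → ℂ)
  (c : ι → ι), Cl TP → Dat u v g e → Eqv u g e c → 1 + v ∈ TP true → Neg TP u v g e →
    Off TP u g e → Four TP u v

def SQ_s : Prop := ∀ (ι : Type) [Fintype ι] (TP : Bool → Set (ι → ℂ)) (u v g e : ι → ℂ),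
  Cl TP → Dat u v g e → Four TP u v → All TP u v

def EXA_s : Prop := ∀ (K : Type) [Field K] [NumberField K] (η : K) (S : Set K),
  Algebra.adjoin ℚ {η} = ⊤ → (∀ x ∈ S, ∀ y ∈ S, x + y ∈ S) →
  (∀ k : ℕ, NumberField.canonicalEmbedding K (η ^ k) ∈
      closure (NumberField.canonicalEmbedding K '' S) ∧
    NumberField.canonicalEmbedding K (-η ^ k) ∈ closure (NumberField.canonicalEmbedding K '' S)) →
  ∀ x ∈ S, -x ∈ S

def END_s : Prop := ∀ (K : Type) [Field K] (η : K) (U W : Set K) (D : Prop), η ≠ 0 →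
  IsIntegral ℤ η⁻¹ → 1 ∈ U → 1 ∈ W → (∀ x ∈ U, ∀ y ∈ U, x + y ∈ U) → (∀ x ∈ W, ∀ y ∈ W, x + y ∈ W) →
  (∀ x ∈ U, -x ∈ U) → (∀ x ∈ W, -x ∈ W) →
  (∀ a ∈ U, ∀ w ∈ W, (1 + η * a * w = 0 → D) ∧
    (1 + η * a * w ≠ 0 → a / (1 + η * a * w) ∈ U ∧ w / (1 + η * a * w) ∈ W)) → D

def DUAL_s : Prop := ∀ (B : Type) [CommRing B] (s : B →+* B) (U V ρ : B) (κ : Bool), U * V = 1 →
  s U = V → s V = U → IsUnit (1 + U) → Tan (TT U V) true κ ρ → s ρ = U * ρ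

/-- The coefficient ring. -/
structure Setp {K : Type} [Field K] [NumberField K] (η : K) {B : Type} [CommRing B]
    (Φ : B →+* ((K →+* ℂ) → ℂ)) (j : K →+* B) (U V : B) : Prop where
  uv : U * V = 1
  eta : j η = U + 2 + V
  psi : ∀ x σ, Φ (j x) σ = σ x
  loc : ∀ x, IsUnit (Φ x) → IsUnit x
  big : ∀ σ, 1 ≤ ‖Φ U σ‖
  sym : ∀ κ ρ, Tan (TT U V) true κ ρ → ∃ x, ρ = (1 + V) * j x

def SET_s : Prop := ∀ (K : Type) [Field K] [NumberField K] (η : K), η ≠ 0 →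
  ∃ (B : Type) (_ : CommRing B) (Φ : B →+* ((K →+* ℂ) → ℂ)) (j : K →+* B) (U V : B),
    Setp η Φ j U V

def TPo {B A : Type} [CommRing B] [CommRing A] (Φ : B →+* A) (U V : B) (κ : Bool) : Set A :=
  Φ '' {ρ | Tan (TT U V) true κ ρ}

def CLA_s : Prop := ∀ (B : Type) [CommRing B] (U V : B), U * V = 1 → Tan (TT U V) true true (1 + V)

def SYS_s : Prop := ∀ (K : Type) [Field K] [NumberField K] (η : K) (B : Type) [CommRing B]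
  (Φ : B →+* ((K →+* ℂ) → ℂ)) (j : K →+* B) (U V : B) (g : (K →+* ℂ) → ℂ), Setp η Φ j U V →
    g * (Φ U - 1) = 1 → ∃ BP, Sys (TPo Φ U V) BP (Φ U) (Φ V) g

def DAT_s : Prop := ∀ (K : Type) [Field K] [NumberField K] (η : K) (B : Type) [CommRing B]
  (Φ : B →+* ((K →+* ℂ) → ℂ)) (j : K →+* B) (U V : B), Setp η Φ j U V → η ≠ 0 →
    Algebra.adjoin ℚ {η} = ⊤ → (∀ σ : K →+* ℂ, ¬((σ η).im = 0 ∧ 4 ≤ (σ η).re)) →
      ∃ g e c, Dat (Φ U) (Φ V) g e ∧ Eqv (Φ U) g e c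

def GRP_s : Prop := ∀ (K : Type) [Field K] [NumberField K] (η : K) (B : Type) [CommRing B]
  (Φ : B →+* ((K →+* ℂ) → ℂ)) (j : K →+* B) (U V : B), Setp η Φ j U V → η ≠ 0 →
    Algebra.adjoin ℚ {η} = ⊤ → IsIntegral ℤ η⁻¹ → IsUnit (U - 1) →
      All (TPo Φ U V) (Φ U) (Φ V) → Tan (TT U V) true false 0

/-- The number field of `η = 2 - α - 1/α`. -/
def FLD_s : Prop := ∀ (f : ℤ[X]) (α : ℂ), IsUnit (f.eval 1) →
  (∀ x : ℝ, x < 0 → aeval x f ≠ 0) → α ≠ 0 → aeval α f = 0 →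
    ∃ (K : Type) (_ : Field K) (_ : NumberField K) (η : K) (σ₀ : K →+* ℂ),
      σ₀ η = 2 - α - α⁻¹ ∧ η ≠ 0 ∧ Algebra.adjoin ℚ {η} = ⊤ ∧ IsIntegral ℤ η⁻¹ ∧
        ∀ σ : K →+* ℂ, ¬((σ η).im = 0 ∧ 4 ≤ (σ η).re)

def TOP_s : Prop := ∀ (f : ℤ[X]) (α : ℂ), IsUnit (f.eval 1) →
  (∀ x : ℝ, x < 0 → aeval x f ≠ 0) → α ≠ 0 → aeval α f = 0 → Zero α

end

end Pool.Agent.MP_bc14f3_gt.Z66
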