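import Pool.Agent.MP_bc14f3_gt.Z66.Defs

set_option autoImplicit false

namespace Pool.Agent.MP_bc14f3_gt.Z66

open Polynomial Filter Topology

/-- the numbers covered by `TOP_s` -/
def Adm (α : ℂ) : Prop := ∃ f : ℤ[X], IsUnit (f.eval 1) ∧ (∀ x : ℝ, x < 0 → aeval x f ≠ 0) ∧
  α ≠ 0 ∧ aeval α f = 0

theorem den_fac (p q s : ℝ) (hq : q ≠ 0) : 1 - 2 * p * s + (p ^ 2 + q ^ 2) * s ^ 2 ≠ 0 := by
  intro h
  have h1 : (1 - p * s) ^ 2 + (q * s) ^ 2 = 0 := by linear_combination h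
  have h2 : q * s = 0 := by nlinarith [sq_nonneg (1 - p * s), sq_nonneg (q * s)]
  have h3 : s = 0 := (mul_eq_zero.1 h2).resolve_left hq
  simp [h3] at h

theorem den_adm (a b c d : ℤ) (x : ℂ) (hre : x.re = a + b * √2) (him : x.im = c + d * √2)
    (h0 : x.im ≠ 0) : Adm (1 + x⁻¹) := by
  have r2 : √2 * √2 = (2 : ℝ) := Real.mul_self_sqrt (by norm_num)
  have hx : x ≠ 0 := fun h => h0 (by simp [h])
  have h0' : (c : ℝ) - d * √2 ≠ 0 := by
    intro h
    by_cases hd : d = 0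
    · apply h0; rw [him]; simp only [hd, Int.cast_zero, zero_mul, sub_zero] at h; simp [hd, h]
    · exact (irrational_sqrt_two.intCast_mul hd).ne_int c (by linarith)
  refine ⟨(1 - 2 * C a * (X - 1) + C (a ^ 2 + 2 * b ^ 2 + c ^ 2 + 2 * d ^ 2) * (X - 1) ^ 2) ^ 2 -
    2 * (-2 * C b * (X - 1) + C (2 * a * b + 2 * c * d) * (X - 1) ^ 2) ^ 2, by simp, ?_, ?_, ?_⟩
  · intro t _ h
    simp only [map_sub, map_add, map_mul, map_pow, map_one, map_neg, map_ofNat, aeval_X, aeval_C,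
      algebraMap_int_eq, eq_intCast, map_intCast] at h
    refine mul_ne_zero (den_fac (a + b * √2) (c + d * √2) (t - 1) (him ▸ h0))
      (den_fac (a - b * √2) (c - d * √2) (t - 1) h0') ?_
    generalize √2 = r at r2
    grind
  · intro h
    have h1 : x = -1 := by
      have := mul_inv_cancel₀ hx
      linear_combination x * h - this
    simp [h1] at h0
  · simp only [map_sub, map_add, map_mul, map_pow, map_one, map_neg, map_ofNat, aeval_X, aeval_C,
      algebraMap_int_eq, eq_intCast, map_intCast, add_sub_cancel_left]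
    have e1 : x = ((a : ℂ) + b * ((√2 : ℝ) : ℂ)) + ((c : ℂ) + d * ((√2 : ℝ) : ℂ)) * Complex.I := by
      rw [← Complex.re_add_im x, hre, him]; push_cast; ring
    have e2 : ((√2 : ℝ) : ℂ) * ((√2 : ℝ) : ℂ) = 2 := by exact_mod_cast r2
    have e3 := mul_inv_cancel₀ hx
    have e4 := Complex.I_mul_I
    generalize ((√2 : ℝ) : ℂ) = r at e1 e2
    generalize x⁻¹ = s at e3
    have e5 : 1 - 2 * (a + b * r) * s + ((a + b * r) ^ 2 + (c + d * r) ^ 2) * s ^ 2 = 0 := by
      grind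
    have e6 : (1 - 2 * (a + b * r) * s + ((a + b * r) ^ 2 + (c + d * r) ^ 2) * s ^ 2) *
      (1 - 2 * (a - b * r) * s + ((a - b * r) ^ 2 + (c - d * r) ^ 2) * s ^ 2) = 0 := by
      rw [e5, zero_mul]
    clear e5 e3 e1 e4
    grind

theorem den_row : Dense {α | Adm α} := by
  have h1 : Dense {p : ℝ | ∃ a b : ℤ, p = a + b * √2} := by
    have := (dense_addSubgroupClosure_pair_iff (a := √2) (b := 1)).2 (by simpa using irrational_sqrt_two)
    refine this.mono fun p hp => ?_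
    obtain ⟨m, n, h⟩ := AddSubgroup.mem_closure_pair.1 hp
    exact ⟨n, m, by rw [← h]; simp [add_comm]⟩
  have h2 : Dense ({p : ℝ | ∃ a b : ℤ, p = a + b * √2} ×ℂ
      ({p : ℝ | ∃ a b : ℤ, p = a + b * √2} ∩ {0}ᶜ)) := by
    rw [dense_iff_closure_eq, Complex.closure_reProdIm, h1.closure_eq,
      (h1.inter_of_isOpen_right (dense_compl_singleton 0) isOpen_compl_singleton).closure_eq]
    ext z; simp [Complex.mem_reProdIm]
  refine dense_closure.1 ((dense_compl_singleton (1 : ℂ)).mono fun z hz => ?_)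
  have hz' : (z - 1)⁻¹ ≠ 0 := inv_ne_zero (sub_ne_zero.2 hz)
  have := cl_map (S' := {α | Adm α}) (fun x : ℂ => 1 + x⁻¹) (h2 (z - 1)⁻¹)
    (by fun_prop (disch := exact hz')) (Eventually.of_forall fun x hx => by
      obtain ⟨⟨a, b, e1⟩, ⟨c, d, e2⟩, e3⟩ := hx
      exact den_adm a b c d x e1 e2 e3)
  simpa using this

end Pool.Agent.MP_bc14f3_gt.Z66
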