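import Pool.Agent.Results.MP_bc14f3_gt.ExactZeros
import Pool.Agent.MP_bc14f3_gt.Z66.R_DEN

/-! The earlier hand-in `DenseZeros` follows from `ExactZeros`. -/

namespace Pool.Agent.MP_bc14f3_gt.Z66

open Polynomial

theorem earlier (z : ℂ) (ε : ℝ) (hε : 0 < ε) :
    ∃ (w : List Move) (o : Pt w → Bool) (D : ℤ[X]) (α : ℂ),
      IsKnot w ∧ IsAlternating w ∧ IsOrientation o ∧ IsAlexander o D ∧ D ≠ 0 ∧
        α ≠ 0 ∧ aeval α D = 0 ∧ ‖α - z‖ < ε := by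
  obtain ⟨α, ⟨f, h1, h2, h0, hf⟩, h⟩ := Metric.mem_closure_iff.1 (den_row z) ε hε
  obtain ⟨w, o, D, a1, a2, a3, a4, a5, a6⟩ :=
    (Pool.Agent.Results.MP_bc14f3_gt.ExactZeros.result α h0).2 ⟨f, Int.isUnit_iff.1 h1, h2, hf⟩
  exact ⟨w, o, D, α, a1, a2, a3, a4, a5, h0, a6, by rwa [dist_comm, dist_eq_norm] at h⟩

end Pool.Agent.MP_bc14f3_gt.Z66
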