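import Pool.Agent.MP_bc14f3_gt.Z66.Defs

/-! Row BAS of campaign h66z: closure rules for limits of tangle values. -/

set_option autoImplicit false

namespace Pool.Agent.MP_bc14f3_gt.Z66

open Filter Topology Polynomial

noncomputable section

theorem bas_mul {ι : Type} (C : Set (ι → ℂ)) (hC : ∀ x y, x ∈ C → y ∈ C → x + y ∈ C)
    {ρ : ι → ℂ} (H : ρ ∈ C) (n : ℕ) : ((n + 1 : ℕ) : ℂ) • ρ ∈ C := by
  induction n with
  | zero => simpa using H
  | succ n ih => rw [Nat.cast_succ, add_smul, one_smul]; exact hC _ _ ih H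

theorem bas_div {ι : Type} (C : Set (ι → ℂ))
    (hC : ∀ x y r, x ∈ C → y ∈ C → (x + y) * r = 1 → x * y * r ∈ C)
    {ρ : ι → ℂ} (H : ρ ∈ C) (hu : IsUnit ρ) (n : ℕ) : ((n + 1 : ℕ) : ℂ)⁻¹ • ρ ∈ C := by
  obtain ⟨s, hs⟩ := hu.exists_right_inv
  have hs' : ∀ i, ρ i * s i = 1 := fun i => congrFun hs i
  induction n with
  | zero => simpa using H
  | succ n ih =>
    have h1 : ((n + 1 : ℕ) : ℂ) ≠ 0 := Nat.cast_ne_zero.2 (by omega)
    have h2 : ((n + 1 + 1 : ℕ) : ℂ) ≠ 0 := Nat.cast_ne_zero.2 (by omega)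
    have h3 : ((n + 1 + 1 : ℕ) : ℂ) = ((n + 1 : ℕ) : ℂ) + 1 := Nat.cast_succ _
    have h4 := mul_inv_cancel₀ h1
    have h5 := mul_inv_cancel₀ h2
    obtain ⟨a, ha⟩ : ∃ a, a = ((n + 1 : ℕ) : ℂ) := ⟨_, rfl⟩
    obtain ⟨b, hb⟩ : ∃ b, b = ((n + 1 + 1 : ℕ) : ℂ) := ⟨_, rfl⟩
    rw [← ha] at ih h4
    rw [← ha, ← hb] at h3
    rw [← hb] at h5 ⊢
    have := hC _ _ ((a * b⁻¹) • s) ih H (by
      funext i
      simp only [Pi.mul_apply, Pi.add_apply, Pi.smul_apply, smul_eq_mul, Pi.one_apply]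
      linear_combination (a⁻¹ + 1) * a * b⁻¹ * hs' i + b⁻¹ * h4 + h5 - b⁻¹ * h3)
    have e : a⁻¹ • ρ * ρ * (a * b⁻¹) • s = b⁻¹ • ρ := by
      funext i
      simp only [Pi.mul_apply, Pi.smul_apply, smul_eq_mul]
      linear_combination a⁻¹ * ρ i * a * b⁻¹ * hs' i + b⁻¹ * ρ i * h4
    rw [e] at this
    exact this

theorem bas_tend : Tendsto (fun n : ℕ => ((n + 1 : ℕ) : ℂ)⁻¹) atTop (𝓝 0) :=
  (tendsto_inv_atTop_nhds_zero_nat (𝕜 := ℂ)).comp (tendsto_add_atTop_nat 1)

theorem bas_row : BAS_s := by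
  intro ι _ TP BP u v g e S D hb
  have cser : ∀ κ x y, x ∈ closure (TP true) → y ∈ closure (TP κ) → x + y ∈ closure (TP κ) :=
    fun κ x y hx hy => map_mem_closure₂ continuous_add hx hy fun _ h _ h' => S.ser κ _ _ h h'
  have cpar : ∀ κ x y r, x ∈ closure (TP κ) → y ∈ closure (TP false) → (x + y) * r = 1 →
      x * y * r ∈ closure (TP κ) := by
    intro κ x y r hx hy hr
    obtain ⟨s, h1, h2, h3⟩ :=
      loc_inv (fun z : (ι → ℂ) × (ι → ℂ) => z.1 + z.2) (x, y) r (by fun_prop) hr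
    rw [← h2]
    exact cl_map (fun z : (ι → ℂ) × (ι → ℂ) => z.1 * z.2 * s z) (p := (x, y))
      (S := TP κ ×ˢ TP false) (by rw [closure_prod_eq]; exact ⟨hx, hy⟩) (by fun_prop)
      (h3.mono fun z hz h => S.par κ _ _ _ h.1 h.2 hz)
  have cls : IsClosed {x | Gd TP x} := by
    have : {x | Gd TP x} = ⋂ κ, closure (TP κ) := by
      ext x
      simp only [Gd, Set.mem_iInter]
      rfl
    rw [this]
    exact isClosed_iInter fun _ => isClosed_closure
  have gadd : ∀ x y, Gd TP x → Gd TP y → Gd TP (x + y) :=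
    fun x y hx hy κ => cser κ x y (hx true) (hy κ)
  have gpar : ∀ x y r, Gd TP x → Gd TP y → (x + y) * r = 1 → Gd TP (x * y * r) :=
    fun x y r hx hy hr κ => cpar κ x y r (hx κ) (hy false) hr
  have huv : ∀ i, u i * v i = 1 := fun i => congrFun D.uv i
  refine ⟨cls, gadd, gpar, ?_, ?_, ?_⟩
  · intro x c H hu hc
    have h1 := (tendsto_nat_ceil_mul_div_atTop hc.le).comp
      (tendsto_natCast_atTop_atTop.comp (tendsto_add_atTop_nat 1))
    refine cls.mem_of_tendsto (((Complex.continuous_ofReal.tendsto c).comp h1).smul_const x)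
      (Eventually.of_forall fun n => ?_)
    obtain ⟨m, hm⟩ := Nat.exists_eq_add_one_of_ne_zero
      (Nat.ceil_pos.2 (by positivity : 0 < c * ((n + 1 : ℕ) : ℝ))).ne'
    have := bas_mul {x | Gd TP x} gadd (bas_div {x | Gd TP x} gpar H hu n) m
    rw [smul_smul] at this
    simpa only [Function.comp, hm, Complex.ofReal_div, Complex.ofReal_natCast, div_eq_mul_inv,
      Complex.ofReal_mul, Complex.ofReal_inv] using this
  · intro x hx κ
    cases κ with
    | true => exact hx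
    | false =>
      have hu : IsUnit (1 + u)⁻¹ := by
        refine IsUnit.of_mul_eq_one (1 + u) ?_
        funext i
        have h0 : 1 + u i ≠ 0 := by
          intro h
          apply D.ne i
          linear_combination v i * h - huv i
        simp only [Pi.mul_apply, Pi.inv_apply, Pi.add_apply, Pi.one_apply]
        exact inv_mul_cancel₀ h0
      have h1 : Tendsto (fun n : ℕ => x + ((n + 1 : ℕ) : ℂ)⁻¹ • (1 + u)⁻¹) atTop
          (𝓝 (x + (0 : ℂ) • (1 + u)⁻¹)) := (bas_tend.smul_const _).const_add x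
      rw [zero_smul, add_zero] at h1
      exact isClosed_closure.mem_of_tendsto h1 (Eventually.of_forall fun n =>
        cser false _ _ hx (bas_div _ (cpar false) (subset_closure hb) hu n))
  · intro x hx _ κ
    cases κ with
    | false => exact hx
    | true =>
      have h0 : (1 + v + (0 : ℂ) • x) * (1 + v)⁻¹ = 1 := by
        funext i
        simp only [zero_smul, add_zero, Pi.mul_apply, Pi.inv_apply, Pi.add_apply, Pi.one_apply]
        exact mul_inv_cancel₀ (D.ne i)
      obtain ⟨s, h1, h2, h3⟩ :=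
        loc_inv (fun ε : ℂ => 1 + v + ε • x) 0 (1 + v)⁻¹ (by fun_prop) h0
      have h4 : Tendsto (fun n : ℕ => (1 + v) * x * s ((n + 1 : ℕ) : ℂ)⁻¹) atTop
          (𝓝 ((1 + v) * x * s 0)) := (h1.tendsto.comp bas_tend).const_mul _
      have h5 : (1 + v) * x * s 0 = x := by
        rw [zero_smul, add_zero, ← h2] at h0
        linear_combination x * h0
      rw [h5] at h4
      refine isClosed_closure.mem_of_tendsto h4 ((bas_tend.eventually h3).mono fun n hn => ?_)
      have h6 : ((n + 1 : ℕ) : ℂ) ≠ 0 := Nat.cast_ne_zero.2 (by omega)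
      have h7 := mul_inv_cancel₀ h6
      have h8 := bas_mul _ (cser true) (subset_closure S.clasp) n
      obtain ⟨a, ha⟩ : ∃ a, a = ((n + 1 : ℕ) : ℂ) := ⟨_, rfl⟩
      rw [← ha] at hn h7 h8 ⊢
      have := cpar true _ _ (a⁻¹ • s a⁻¹) h8 hx (by
        funext i
        have hi := congrFun hn i
        simp only [Pi.mul_apply, Pi.add_apply, Pi.smul_apply, smul_eq_mul, Pi.one_apply] at hi ⊢
        linear_combination hi + (1 + v i) * s a⁻¹ i * h7)
      have e' : a • (1 + v) * x * a⁻¹ • s a⁻¹ = (1 + v) * x * s a⁻¹ := by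
        funext i
        simp only [Pi.mul_apply, Pi.add_apply, Pi.smul_apply, smul_eq_mul, Pi.one_apply]
        linear_combination (1 + v i) * x i * s a⁻¹ i * h7
      rw [e'] at this
      exact this

end

end Pool.Agent.MP_bc14f3_gt.Z66
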