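import Pool.Agent.MP_bc14f3_gt.Z66.Defs

namespace Pool.Agent.MP_bc14f3_gt.Z66

open Filter Topology Polynomial

theorem chan_row : CHAN_s := by
  intro ι _ TP BP u v g e S D hR ρ r N H hρ hr
  have huv := D.uv
  have hg := D.gu
  have hee : e * e = e := by
    funext i
    rcases D.ind i with h | h <;> simp [h.1]
  have hre : r * e = e := by linear_combination e * hr - u * g * r * hρ
  have key : (u * g * (e * v - 1), u * g * (1 - e), g * (1 - e * v),
      (N : ℂ) • (g * r * ρ * (u * g))) ∈ closure (BP true) := by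
    induction N with
    | zero =>
      have h := cl_map (S' := BP true) (fun x : ι → ℂ =>
        ((u * g * (x * v * x - 1), u * g * (1 - x), g * (1 - x * v), 0) : Q4 ι)) hR (by fun_prop)
        (Eventually.of_forall (by
          rintro _ ⟨n, rfl⟩
          have b := S.base true (2 * n + 2 + 1) (2 * n + 2) (by omega) (by simp)
          rwa [pow_succ v (2 * n + 2)] at b))
      have e1 : e * v * e = e * v := by linear_combination v * hee
      rw [e1] at h
      rw [Nat.cast_zero, zero_smul]
      exact h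
    | succ N ih =>
      obtain ⟨s, h1, h2, h3⟩ := loc_inv (fun x : (ι → ℂ) × (ι → ℂ) × Q4 ι => 1 - x.2.1 * x.2.2.1)
        (e, ρ, u * g * (e * v - 1), u * g * (1 - e), g * (1 - e * v),
          (N : ℂ) • (g * r * ρ * (u * g))) r (by fun_prop)
        (by linear_combination hr - u * g * v * r * hρ)
      have h := cl_map (S' := BP true) (fun x : (ι → ℂ) × (ι → ℂ) × Q4 ι =>
        ((u * g * (x.1 * x.1 * (1 + (1 - v) * x.2.2.1 * s x) - 1),
          u * g * (1 - x.1 * (1 - (1 - v) * x.2.2.2.1 * s x)),
          x.2.2.2.2.1 * s x * x.1 + g * (1 - x.1),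
          x.2.2.2.2.2 + x.2.2.2.2.1 * s x * x.2.1 * x.2.2.2.1) : Q4 ι))
        (S := (Set.range fun n : ℕ => v ^ (2 * n + 2)) ×ˢ TP true ×ˢ BP true)
        (by
          rw [closure_prod_eq, closure_prod_eq]
          exact ⟨hR, H, ih⟩)
        (by fun_prop) (h3.mono (by
          rintro ⟨_, y, a, b, c, d⟩ hx ⟨⟨n, rfl⟩, h, h'⟩
          exact S.step true a b c d y _ (n + 1) h' h hx))
      simp only [h2] at h
      have e1 : u * g * (e * e * (1 + (1 - v) * (u * g * (e * v - 1)) * r) - 1) =
          u * g * (e * v - 1) := by grind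
      have e2 : u * g * (1 - e * (1 - (1 - v) * (u * g * (1 - e)) * r)) = u * g * (1 - e) := by
        grind
      have e3 : g * (1 - e * v) * r * e + g * (1 - e) = g * (1 - e * v) := by grind
      have e4 : g * (1 - e * v) * r * ρ * (u * g * (1 - e)) = g * r * ρ * (u * g) := by grind
      rw [e1, e2, e3, e4] at h
      rw [Nat.cast_succ, add_smul, one_smul]
      exact h
  obtain ⟨s, h1, h2, h3⟩ := loc_inv (fun x : Q4 ι => x.1)
    (u * g * (e * v - 1), u * g * (1 - e), g * (1 - e * v), (N : ℂ) • (g * r * ρ * (u * g)))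
    (v - 1 - e * v) (by fun_prop) (by grind)
  have h := cl_map (S' := TP true) (fun x : Q4 ι => x.2.2.2 - x.2.2.1 * s x * x.2.1) key
    (by fun_prop) (h3.mono fun x hx h => S.top true _ _ _ _ _ h hx)
  simp only [h2] at h
  have e5 : g * (1 - e * v) * (v - 1 - e * v) * (u * g * (1 - e)) = -((1 - e) * g) := by grind
  rw [e5, sub_neg_eq_add, add_comm] at h
  exact h

end Pool.Agent.MP_bc14f3_gt.Z66
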