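import Pool.Agent.MP_bc14f3_gt.Z66.Defs

namespace Pool.Agent.MP_bc14f3_gt.Z66

theorem dat_two {u v u' v' : ℂ} (h : u * v = 1) (h' : u' * v' = 1)
    (e : u' + 2 + v' = (starRingEnd ℂ) (u + 2 + v)) (b' : 1 ≤ ‖u'‖) (b : 1 ≤ ‖u‖) :
    u' = (starRingEnd ℂ) u ∨ (‖u'‖ = 1 ∧ ‖u‖ = 1) := by
  have h1 : (starRingEnd ℂ) u * (starRingEnd ℂ) v = 1 := by rw [← map_mul, h, map_one]
  rw [map_add, map_add, map_ofNat] at e
  have h2 : (u' - (starRingEnd ℂ) u) * (u' - (starRingEnd ℂ) v) = 0 := by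
    linear_combination u' * e - h' + h1
  rcases mul_eq_zero.1 h2 with h3 | h3
  · exact Or.inl (sub_eq_zero.1 h3)
  · have h4 : ‖u'‖ = ‖v‖ := by rw [sub_eq_zero.1 h3, Complex.norm_conj]
    have h5 : ‖u‖ * ‖v‖ = 1 := by rw [← norm_mul, h, norm_one]
    rw [h4] at b' ⊢
    exact Or.inr ⟨by nlinarith, by nlinarith⟩

theorem dat_row : DAT_s := by
  intro K _ _ η B _ Φ j U V S hη htop hpos
  classical
  have huv : Φ U * Φ V = 1 := by rw [← map_mul, S.uv, map_one]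
  have huv' : ∀ σ, Φ U σ * Φ V σ = 1 := fun σ => congrFun huv σ
  have he : ∀ σ : K →+* ℂ, σ η = Φ U σ + 2 + Φ V σ := fun σ => by
    rw [← S.psi η σ, S.eta, map_add, map_add, map_ofNat]; rfl
  have h1 : ∀ σ, Φ U σ - 1 ≠ 0 := fun σ h => by
    have a1 : Φ U σ = 1 := sub_eq_zero.1 h
    have a2 : Φ V σ = 1 := by have := huv' σ; rwa [a1, one_mul] at this
    refine hpos σ ?_
    rw [he σ, a1, a2]; norm_num
  have hy : ∀ σ : K →+* ℂ, (Φ U * (fun σ => (Φ U σ - 1)⁻¹) * fun σ => (Φ U σ - 1)⁻¹) σ =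
      (σ η - 4)⁻¹ := fun σ => by
    refine eq_inv_of_mul_eq_one_left ?_
    have := huv' σ
    have h2 := mul_inv_cancel₀ (h1 σ)
    simp only [Pi.mul_apply]
    rw [he σ]
    generalize (Φ U σ - 1)⁻¹ = g at h2
    linear_combination g * g * this + ((Φ U σ - 1) * g + 1) * h2
  have hc : ∀ σ : K →+* ℂ, Φ U ((starRingEnd ℂ).comp σ) = (starRingEnd ℂ) (Φ U σ) ∨
      (‖Φ U ((starRingEnd ℂ).comp σ)‖ = 1 ∧ ‖Φ U σ‖ = 1) := fun σ =>
    dat_two (huv' σ) (huv' _) (by rw [← he, ← he]; rfl) (S.big _) (S.big σ)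
  refine ⟨fun σ => (Φ U σ - 1)⁻¹, fun σ => if ‖Φ U σ‖ = 1 then 1 else 0,
    fun σ => (starRingEnd ℂ).comp σ, ⟨huv, funext fun σ => inv_mul_cancel₀ (h1 σ), fun σ h => ?_,
      fun σ => ?_⟩, ⟨fun σ => ?_, fun σ h => ?_, fun σ => ?_, fun σ σ' h => ?_, fun σ h => ?_⟩⟩
  · have a2 : Φ V σ = -1 := by linear_combination h
    have a1 : Φ U σ = -1 := by have := huv' σ; rw [a2] at this; linear_combination -this
    refine hη (σ.injective ?_)
    rw [he σ, a1, a2, map_zero]; norm_num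
  · have h5 : ‖Φ U σ‖ * ‖Φ V σ‖ = 1 := by rw [← norm_mul, huv', norm_one]
    have h6 := S.big σ
    have h7 := norm_nonneg (Φ V σ)
    by_cases h : ‖Φ U σ‖ = 1
    · exact Or.inl ⟨if_pos h, by rwa [h, one_mul] at h5⟩
    · refine Or.inr ⟨if_neg h, ?_⟩
      have h8 : 1 < ‖Φ U σ‖ := lt_of_le_of_ne h6 (Ne.symm h)
      by_contra h9
      have := not_lt.1 h9
      nlinarith
  · rcases hc σ with h | h
    · simp only [h, Complex.norm_conj]
    · simp only [h.1, h.2]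
  · rcases hc σ with h' | h'
    · exact h'
    · simp [h'.2] at h
  · rw [hy, hy, map_inv₀, map_sub, map_ofNat]; rfl
  · rw [hy, hy, inv_inj, sub_left_inj] at h
    have : σ.toRatAlgHom = σ'.toRatAlgHom :=
      AlgHom.ext_of_adjoin_eq_top htop fun x hx => by rw [Set.mem_singleton_iff.1 hx]; exact h
    exact RingHom.ext fun x => DFunLike.congr_fun this x
  · rw [hy] at h
    refine hpos σ ?_
    obtain ⟨y, hy'⟩ : ∃ y, y = (σ η - 4)⁻¹ := ⟨_, rfl⟩
    rw [← hy'] at h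
    have e1 : σ η = y⁻¹ + 4 := by rw [hy', inv_inv]; ring
    have e2 : y = (y.re : ℂ) := Complex.ext (by simp) (by simp [h.1])
    rw [e1, e2, ← Complex.ofReal_inv]
    have := inv_nonneg.2 h.2
    simp only [Complex.add_im, Complex.ofReal_im, Complex.add_re, Complex.ofReal_re]
    exact ⟨by norm_num, by norm_num; exact h.2⟩

end Pool.Agent.MP_bc14f3_gt.Z66
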