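import Pool.Agent.MP_bc14f3_gt.Z66.Defs

set_option autoImplicit false

namespace Pool.Agent.MP_bc14f3_gt.Z66

section
variable {B : Type} [CommRing B]

/-- (product of the weights, of the inverse weights, conjugate linear invariant, form) -/
def dualInv (T : Bool → B) (s : B →+* B) : List (Lb B) → B × B × B × B
  | [] => (1, 1, 0, 0)
  | z :: l =>
    ((dualInv T s l).1 * T z.1, (dualInv T s l).2.1 * T (!z.1),
      (dualInv T s l).2.2.1 + (dualInv T s l).2.1 * (1 - T (!z.1)) * s z.2.1,
      (dualInv T s l).2.2.2 + (dualInv T s l).1 * (1 - T z.1) * z.2.1 * (dualInv T s l).2.2.1 +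
        (1 - T z.1) * z.2.1 * s z.2.1)

theorem dual_one {T : Bool → B} {s : B →+* B} (hT : ∀ b, T b * T (!b) = 1) (l : List (Lb B)) :
    (dualInv T s l).1 * (dualInv T s l).2.1 = 1 := by
  induction l with
  | nil => simp [dualInv]
  | cons z l ih =>
    simp only [dualInv]
    linear_combination (T z.1 * T (!z.1)) * ih + hT z.1

theorem dual_step {T : Bool → B} {s : B →+* B} (hT : ∀ b, T b * T (!b) = 1)
    (hs : ∀ b, s (T b) = T (!b)) {E : Prop} {τ m l l'} (h : Step T E τ m l l') :
    dualInv T s l = dualInv T s l' := by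
  induction h with
  | cup τ o c h h' l _ =>
    have h1 := hT o
    have h2 := dual_one (s := s) hT l
    simp only [dualInv, Bool.not_not]
    refine Prod.ext ?_ (Prod.ext ?_ (Prod.ext ?_ ?_)) <;> simp only [] <;> grind
  | cap τ o c h h' l _ =>
    have h1 := hT o
    have h2 := dual_one (s := s) hT l
    simp only [dualInv, Bool.not_not]
    refine Prod.ext ?_ (Prod.ext ?_ (Prod.ext ?_ ?_)) <;> simp only [] <;> grind
  | cross τ o o' x y x' y' h h' l hc =>
    have h1 := hT o
    have h1' := hT o'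
    have h2 := dual_one (s := s) hT l
    cases τ
    · simp only [crule, Bool.false_eq_true, if_false] at hc
      obtain ⟨rfl, rfl⟩ := hc
      simp only [dualInv, map_add, map_mul, map_sub, map_one, hs]
      refine Prod.ext ?_ (Prod.ext ?_ (Prod.ext ?_ ?_)) <;> simp only [] <;> grind
    · simp only [crule, if_true] at hc
      obtain ⟨rfl, rfl⟩ := hc
      simp only [dualInv, map_add, map_mul, map_sub, map_one, hs]
      refine Prod.ext ?_ (Prod.ext ?_ (Prod.ext ?_ ?_)) <;> simp only [] <;> grind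
  | sh τ m z l l' _ ih => simp only [dualInv, ih]

theorem dual_run {T : Bool → B} {s : B →+* B} (hT : ∀ b, T b * T (!b) = 1)
    (hs : ∀ b, s (T b) = T (!b)) {τ w l l'} (h : Run T τ w l l') :
    dualInv T s l = dualInv T s l' := by
  induction h with
  | nil l => rfl
  | cons m w l l₁ l' h _ ih => exact (dual_step hT hs h).trans ih

end

theorem dual_row : DUAL_s := by
  intro B _ s U V ρ κ huv hU hV hu H
  obtain ⟨w, k₁, k₂, H⟩ := H
  have hT : ∀ b, TT U V b * TT U V (!b) = 1 := by
    intro b; cases b <;> simp [TT, huv, mul_comm V U]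
  have hs : ∀ b, s (TT U V b) = TT U V (!b) := by
    intro b; cases b <;> simp [TT, hU, hV]
  obtain ⟨h₂, h₃, ht⟩ : ∃ h₂ h₃, tc κ k₁ k₂ 0 h₂ h₃ 0 := by
    cases κ
    · exact ⟨k₁, k₂, by simp [tc]⟩
    · exact ⟨k₂, k₁, by simp [tc]⟩
  have h := congrArg (fun p => p.2.2.2)
    (dual_run hT hs (H 0 1 ρ (1 + ρ) 0 h₂ h₃ 0 [] (by ring) (by ring) ht))
  simp only [dualInv, TT, map_add, map_one, map_zero, Bool.not_true, Bool.not_false, if_true,
    Bool.false_eq_true, if_false] at h
  refine hu.mul_left_cancel ?_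
  grind

end Pool.Agent.MP_bc14f3_gt.Z66
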