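import Pool.Agent.MP_bc14f3_gt.Z66.Defs

set_option autoImplicit false

namespace Pool.Agent.MP_bc14f3_gt.Z66

open Polynomial

theorem end_row : END_s := by
  intro K _ η U W D h0 hint u1 w1 uadd wadd uneg wneg H
  by_contra hD
  have ne : ∀ a ∈ U, ∀ w ∈ W, 1 + η * a * w ≠ 0 := fun a ha w hw h => hD ((H a ha w hw).1 h)
  have hWU : ∀ w ∈ W, η * w ∈ U := fun w hw => by
    have n1 := ne 1 u1 w hw
    have h1 := wneg _ ((H 1 u1 w hw).2 n1).2
    have n2 := ne 1 u1 _ h1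
    have h2 := uadd _ ((H 1 u1 _ h1).2 n2).1 _ (uneg 1 u1)
    have e : 1 + η * 1 * -(w / (1 + η * 1 * w)) = (1 + η * 1 * w)⁻¹ := by
      rw [div_eq_mul_inv]; linear_combination (-1 : K) * mul_inv_cancel₀ n1
    rw [e, one_div, inv_inv] at h2
    have e2 : η * w = 1 + η * 1 * w + -1 := by ring
    rw [e2]; exact h2
  have hUW : ∀ a ∈ U, η * a ∈ W := fun a ha => by
    have n1 := ne a ha 1 w1
    have h1 := uneg _ ((H a ha 1 w1).2 n1).1
    have n2 := ne _ h1 1 w1
    have h2 := wadd _ ((H _ h1 1 w1).2 n2).2 _ (wneg 1 w1)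
    have e : 1 + η * -(a / (1 + η * a * 1)) * 1 = (1 + η * a * 1)⁻¹ := by
      rw [div_eq_mul_inv]; linear_combination (-1 : K) * mul_inv_cancel₀ n1
    rw [e, one_div, inv_inv] at h2
    have e2 : η * a = 1 + η * a * 1 + -1 := by ring
    rw [e2]; exact h2
  have hp : ∀ k : ℕ, η ^ k ∈ U ∧ η ^ k ∈ W := fun k => by
    induction k with
    | zero => rw [pow_zero]; exact ⟨u1, w1⟩
    | succ k ih => rw [pow_succ']; exact ⟨hWU _ ih.2, hUW _ ih.1⟩
  let S : AddSubgroup K :=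
    { carrier := W
      add_mem' := fun ha hb => wadd _ ha _ hb
      zero_mem' := by
        have := wadd _ w1 _ (wneg 1 w1)
        rwa [add_neg_cancel] at this
      neg_mem' := fun ha => wneg _ ha }
  obtain ⟨p, hm, hz⟩ := hint
  rw [eval₂_eq_sum_range, Finset.sum_range_succ, hm.coeff_natDegree, map_one, one_mul] at hz
  have hc : (∑ i ∈ Finset.range p.natDegree, p.coeff i • η ^ (p.natDegree - 1 - i)) ∈ S :=
    S.sum_mem fun i _ => S.zsmul_mem (hp _).2 _
  refine ne 1 u1 _ hc ?_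
  have e : η * 1 * ∑ i ∈ Finset.range p.natDegree, p.coeff i • η ^ (p.natDegree - 1 - i) =
      η ^ p.natDegree * ∑ i ∈ Finset.range p.natDegree, algebraMap ℤ K (p.coeff i) * η⁻¹ ^ i := by
    rw [Finset.mul_sum, Finset.mul_sum]
    refine Finset.sum_congr rfl fun i hi => ?_
    obtain ⟨k, hk⟩ := Nat.exists_eq_add_of_lt (Finset.mem_range.1 hi)
    have e1 : p.natDegree - 1 - i = k := by omega
    have e2 : η ^ i * η⁻¹ ^ i = 1 := by rw [← mul_pow, mul_inv_cancel₀ h0, one_pow]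
    rw [e1, hk, zsmul_eq_mul, eq_intCast, pow_succ, pow_add]
    linear_combination (-(η * (p.coeff i : K) * η ^ k)) * e2
  have e3 : η ^ p.natDegree * η⁻¹ ^ p.natDegree = 1 := by
    rw [← mul_pow, mul_inv_cancel₀ h0, one_pow]
  rw [e]
  linear_combination η ^ p.natDegree * hz - e3

end Pool.Agent.MP_bc14f3_gt.Z66
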