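import Pool.Agent.MP_bc14f3_gt.Z66.Defs

/-! A subsemigroup of a number field with dense cone is a group. -/

set_option autoImplicit false

namespace Pool.Agent.MP_bc14f3_gt.Z66

open Filter Topology Polynomial NumberField

theorem exa_ext {K : Type} [Field K] [NumberField K] (l : K →ₗ[ℚ] ℚ) :
    ∃ L : ((K →+* ℂ) → ℂ) → ℂ, Continuous L ∧ ∀ x, L (canonicalEmbedding K x) = (l x : ℂ) := by
  classical
  let L := (canonicalEmbedding.latticeBasis K).constr ℂ fun i => ((l (integralBasis K i) : ℚ) : ℂ)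
  refine ⟨L, L.continuous_of_finiteDimensional, fun x => ?_⟩
  have h1 : l x = ∑ i, (integralBasis K).repr x i * l (integralBasis K i) := by
    conv_lhs => rw [← (integralBasis K).sum_repr x]
    simp only [map_sum, map_smul, smul_eq_mul]
  rw [h1]
  simp only [L, Module.Basis.constr_apply_fintype, Module.Basis.equivFun_apply,
    canonicalEmbedding.integralBasis_repr_apply, smul_eq_mul]
  push_cast
  rfl

theorem exa_near {K : Type} [Field K] [NumberField K] {d : ℕ} (b : Module.Basis (Fin d) ℚ K)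
    {S : Set K} {z : K} (hz : canonicalEmbedding K z ∈ closure (canonicalEmbedding K '' S))
    {δ : ℚ} (hδ : 0 < δ) : ∃ s ∈ S, ∀ i, |b.repr s i - b.repr z i| < δ := by
  choose L hL hL' using fun i => exa_ext (b.coord i)
  have hO : IsOpen {w | ∀ i, ‖L i w - L i (canonicalEmbedding K z)‖ < (δ : ℝ)} := by
    rw [Set.ofPred_forall]
    exact isOpen_iInter_of_finite fun i =>
      isOpen_lt ((hL i).sub continuous_const).norm continuous_const
  obtain ⟨w, hw, s, hs, rfl⟩ := mem_closure_iff.1 hz _ hO fun i => by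
    rw [sub_self, norm_zero]
    exact_mod_cast hδ
  refine ⟨s, hs, fun i => ?_⟩
  have h := hw i
  rw [hL', hL', ← Rat.cast_sub, Complex.norm_ratCast] at h
  simp only [Module.Basis.coord_apply] at h
  exact_mod_cast h

theorem exa_nsmul {K : Type} [Field K] {S : Set K} (hS : ∀ x ∈ S, ∀ y ∈ S, x + y ∈ S) {x : K}
    (hx : x ∈ S) (n : ℕ) : ((n : K) + 1) * x ∈ S := by
  induction n with
  | zero => simpa using hx
  | succ n ih =>
    have h := hS _ ih _ hx
    have e : ((n : K) + 1) * x + x = (((n + 1 : ℕ) : K) + 1) * x := by push_cast; ring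
    rwa [e] at h

/-- the rational cone of a semigroup -/
def exa_cone {K : Type} [Field K] (S : Set K) : Set K := {x | ∃ n : ℕ, ((n : K) + 1) * x ∈ S}

theorem exa_add {K : Type} [Field K] {S : Set K} (hS : ∀ x ∈ S, ∀ y ∈ S, x + y ∈ S) {x y : K}
    (hx : x ∈ exa_cone S) (hy : y ∈ exa_cone S) : x + y ∈ exa_cone S := by
  obtain ⟨n, hn⟩ := hx
  obtain ⟨m, hm⟩ := hy
  refine ⟨n * m + n + m, ?_⟩
  have h := hS _ (exa_nsmul hS hn m) _ (exa_nsmul hS hm n)
  have e : ((m : K) + 1) * (((n : K) + 1) * x) + ((n : K) + 1) * (((m : K) + 1) * y) =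
      (((n * m + n + m : ℕ) : K) + 1) * (x + y) := by push_cast; ring
  rwa [e] at h

theorem exa_smul {K : Type} [Field K] [CharZero K] {S : Set K}
    (hS : ∀ x ∈ S, ∀ y ∈ S, x + y ∈ S) {x : K} (hx : x ∈ S) {q : ℚ} (hq : 0 < q) :
    q • x ∈ exa_cone S := by
  obtain ⟨a, ha⟩ : ∃ a : ℕ, q.den = a + 1 := Nat.exists_eq_succ_of_ne_zero q.den_nz
  obtain ⟨c, hc⟩ : ∃ c : ℕ, q.num = (c : ℤ) + 1 :=
    ⟨(q.num - 1).toNat, by have := Rat.num_pos.2 hq; omega⟩
  refine ⟨a, ?_⟩
  have h1 : ((a : ℚ) + 1) * q = (c : ℚ) + 1 := by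
    have h2 := Rat.mul_den_eq_num q
    rw [ha, hc] at h2
    push_cast at h2
    linarith only [h2]
  have h3 : ((a : K) + 1) * (q : K) = (c : K) + 1 := by exact_mod_cast congrArg (Rat.cast : ℚ → K) h1
  rw [Rat.smul_def, ← mul_assoc, h3]
  exact exa_nsmul hS hx c

theorem exa_sum {K : Type} [Field K] {S : Set K} (hS : ∀ x ∈ S, ∀ y ∈ S, x + y ∈ S) {ι : Type}
    (t : Finset ι) (f : ι → K) {x : K} (hx : x ∈ exa_cone S) (hf : ∀ i, f i ∈ exa_cone S) :
    x + ∑ i ∈ t, f i ∈ exa_cone S := by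
  classical
  induction t using Finset.induction_on with
  | empty => simpa using hx
  | insert i t hi ih =>
    rw [Finset.sum_insert hi, add_left_comm]
    exact exa_add hS (hf i) ih

theorem exa_est {d : ℕ} (A : Fin d → Fin d → ℚ) (δ : ℚ)
    (hA : ∀ j i, |A j i - if j = i then 1 else 0| < δ) (r : Fin d → ℚ) (m : ℚ)
    (hm : ∀ j, |r j| ≤ m) (i : Fin d) : |∑ j, r j * A j i - r i| ≤ d * (m * δ) := by
  have e : ∑ j, r j * A j i - r i = ∑ j, r j * (A j i - if j = i then 1 else 0) := by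
    simp [mul_sub, Finset.sum_sub_distrib]
  rw [e]
  refine (Finset.abs_sum_le_sum_abs _ _).trans ?_
  have h : ∀ j ∈ (Finset.univ : Finset (Fin d)),
      |r j * (A j i - if j = i then 1 else 0)| ≤ m * δ := fun j _ => by
    rw [abs_mul]
    exact mul_le_mul (hm j) (hA j i).le (abs_nonneg _) ((abs_nonneg _).trans (hm j))
  simpa using Finset.sum_le_card_nsmul _ _ _ h

theorem exa_row : EXA_s := by
  intro K _ _ η S hη hS hcl x hx
  classical
  let pb := PowerBasis.ofAdjoinEqTop (Algebra.IsIntegral.isIntegral (R := ℚ) η) hη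
  have hb : ∀ i, pb.basis i = η ^ (i : ℕ) := fun i => by
    rw [pb.basis_eq_pow, PowerBasis.ofAdjoinEqTop_gen]
  obtain ⟨d, b, hb, hd⟩ : ∃ (d : ℕ) (b : Module.Basis (Fin d) ℚ K), (∀ i, b i = η ^ (i : ℕ)) ∧
      0 < d := ⟨pb.dim, pb.basis, hb, pb.dim_pos⟩
  have hd' : (0 : ℚ) < d := by exact_mod_cast hd
  have hδ : (0 : ℚ) < 1 / (4 * d) := by positivity
  choose s hs hs' using fun i : Fin d => exa_near b ((hb i).symm ▸ (hcl i).1) hδ
  choose t ht ht' using fun i : Fin d => exa_near b ((hb i).symm ▸ (hcl i).2) hδ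
  have hA : ∀ j i, |b.repr (s j) i - if j = i then 1 else 0| < 1 / (4 * d) := fun j i => by
    have h := hs' j i
    rwa [b.repr_self, Finsupp.single_apply] at h
  have hB : ∀ j i, |b.repr (-t j) i - if j = i then 1 else 0| < 1 / (4 * d) := fun j i => by
    have h := ht' j i
    rw [map_neg, Finsupp.neg_apply, b.repr_self, Finsupp.single_apply] at h
    rw [map_neg, Finsupp.neg_apply, ← abs_neg]
    refine lt_of_eq_of_lt (congrArg _ ?_) h
    ring
  let T : K →ₗ[ℚ] K := b.constr ℚ s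
  have hT : ∀ y i, b.repr (T y) i = ∑ j, b.repr y j * b.repr (s j) i := fun y i => by
    simp only [T, Module.Basis.constr_apply_fintype, Module.Basis.equivFun_apply, map_sum,
      map_smul, Finsupp.coe_finsetSum, Finset.sum_apply, Finsupp.smul_apply, smul_eq_mul]
  have hmax : ∀ y : K, ∃ i, ∀ j, |b.repr y j| ≤ |b.repr y i| := fun y => by
    obtain ⟨i, -, hi⟩ := Finset.exists_max_image Finset.univ (fun j => |b.repr y j|)
      ⟨⟨0, hd⟩, Finset.mem_univ _⟩
    exact ⟨i, fun j => hi j (Finset.mem_univ _)⟩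
  have hq : ∀ m : ℚ, d * (m * (1 / (4 * d))) = m / 4 := fun m => by field_simp
  have hinj : Function.Injective T := by
    rw [injective_iff_map_eq_zero]
    intro y hy
    obtain ⟨i, hi⟩ := hmax y
    have h := exa_est _ _ hA (fun j => b.repr y j) _ hi i
    rw [← hT, hy, hq, map_zero, Finsupp.zero_apply, zero_sub, abs_neg] at h
    have h0 : |b.repr y i| ≤ 0 := by linarith only [h]
    refine b.repr.injective (Finsupp.ext fun j => ?_)
    rw [map_zero, Finsupp.zero_apply]
    exact abs_nonpos_iff.1 ((hi j).trans h0)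
  have hsur : Function.Surjective T := LinearMap.injective_iff_surjective.1 hinj
  obtain ⟨r, hr⟩ := hsur (∑ j, -t j)
  have hr1 : ∀ i, |b.repr (T r) i - 1| ≤ 1 / 4 := fun i => by
    have h := exa_est _ _ hB (fun _ => 1) 1 (fun _ => by simp) i
    rw [hq] at h
    rw [hr]
    simpa only [map_sum, Finsupp.coe_finsetSum, Finset.sum_apply, one_mul] using h
  have hrp : ∀ j, 1 / 4 ≤ b.repr r j := fun j => by
    obtain ⟨i, hi⟩ := hmax r
    have h1 := exa_est _ _ hA (fun j => b.repr r j) _ hi i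
    have h2 := exa_est _ _ hA (fun j => b.repr r j) _ hi j
    rw [← hT, hq] at h1 h2
    have h3 := abs_le.1 (hr1 i)
    have h4 := abs_le.1 (hr1 j)
    have h5 := abs_le.1 h1
    have h6 := abs_le.1 h2
    have h7 : |b.repr r i| ≤ 5 / 4 + |b.repr r i| / 4 :=
      abs_le.2 ⟨by linarith only [h3.1, h5.2, abs_nonneg (b.repr r i)],
        by linarith only [h3.2, h5.1]⟩
    linarith only [h7, h4.1, h6.2]
  obtain ⟨y, hy⟩ := hsur (-x)
  obtain ⟨i, hi⟩ := hmax y
  have hM : (0 : ℚ) < 4 * |b.repr y i| + 1 := by positivity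
  have hTy : ∀ z, T z = ∑ j, b.repr z j • s j := fun z => by
    simp only [T, Module.Basis.constr_apply_fintype, Module.Basis.equivFun_apply]
  have key : -x = (∑ j, (b.repr y j + (4 * |b.repr y i| + 1) * b.repr r j) • s j) +
      ∑ j, (4 * |b.repr y i| + 1) • t j := by
    have e1 : ∑ j, (b.repr y j + (4 * |b.repr y i| + 1) * b.repr r j) • s j =
        T y + (4 * |b.repr y i| + 1) • T r := by
      rw [hTy y, hTy r, Finset.smul_sum, ← Finset.sum_add_distrib]
      exact Finset.sum_congr rfl fun j _ => by rw [add_smul, mul_smul]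
    rw [e1, hy, hr, ← Finset.smul_sum, Finset.sum_neg_distrib, smul_neg]
    abel
  have hx' : x ∈ exa_cone S := ⟨0, by simpa using hx⟩
  have h1 := exa_sum hS Finset.univ _ (exa_sum hS Finset.univ _ hx' fun j =>
    exa_smul hS (hs j) (q := b.repr y j + (4 * |b.repr y i| + 1) * b.repr r j) (by
      have h2 := abs_le.1 (hi j)
      have h3 := mul_le_mul_of_nonneg_left (hrp j) hM.le
      linarith only [h2.1, h3])) fun j => exa_smul hS (ht j) hM
  have hpos : ∀ j, (∑ j, (b.repr y j + (4 * |b.repr y i| + 1) * b.repr r j) • s j) +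
      ∑ j, (4 * |b.repr y i| + 1) • t j - (4 * |b.repr y i| + 1) • t j +
      (4 * |b.repr y i| + 1) • t j = -x := fun j => by rw [sub_add_cancel, ← key]
  have h0 : (0 : K) ∈ S := by
    rw [add_assoc, ← key, add_neg_cancel] at h1
    obtain ⟨n, hn⟩ := h1
    rwa [mul_zero] at hn
  have h2 := exa_sum hS Finset.univ _ (exa_sum hS Finset.univ _ (⟨0, by simpa using h0⟩ :
    (0 : K) ∈ exa_cone S) fun j =>
    exa_smul hS (hs j) (q := b.repr y j + (4 * |b.repr y i| + 1) * b.repr r j) (by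
      have h2 := abs_le.1 (hi j)
      have h3 := mul_le_mul_of_nonneg_left (hrp j) hM.le
      linarith only [h2.1, h3])) fun j => exa_smul hS (ht j) hM
  rw [zero_add, ← key] at h2
  obtain ⟨n, hn⟩ := h2
  rcases n with _ | n
  · simpa using hn
  · have h3 := hS _ hn _ (exa_nsmul hS hx n)
    have e : (((n + 1 : ℕ) : K) + 1) * -x + ((n : K) + 1) * x = -x := by push_cast; ring
    rwa [e] at h3

end Pool.Agent.MP_bc14f3_gt.Z66
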