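import Pool.Agent.MP_bc14f3_gt.Z66.Defs

set_option autoImplicit false

namespace Pool.Agent.MP_bc14f3_gt.Z66

open Filter Topology Polynomial IntermediateField

theorem fld_int (f : ℤ[X]) (α : ℂ) (hf : IsUnit (f.eval 1)) (h1 : α - 1 ≠ 0)
    (h : aeval α f = 0) : IsIntegral ℤ (α - 1)⁻¹ := by
  obtain ⟨c, hc⟩ := hf.exists_left_inv
  have h0 : (f.comp (X + 1)).coeff 0 = f.eval 1 := by
    rw [coeff_zero_eq_eval_zero]; simp
  have hne : (f.comp (X + 1)).coeff 0 ≠ 0 := by rw [h0]; exact hf.ne_zero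
  have hl : (f.comp (X + 1)).reverse.leadingCoeff = f.eval 1 := by
    rw [reverse_leadingCoeff, trailingCoeff, natTrailingDegree_eq_zero.2 (Or.inr hne), h0]
  refine ⟨C c * (f.comp (X + 1)).reverse, monic_C_mul_of_mul_leadingCoeff_eq_one (by rw [hl, hc]), ?_⟩
  let _ : Invertible (α - 1) := invertibleOfNonzero h1
  have h2 : eval₂ (algebraMap ℤ ℂ) (α - 1) (f.comp (X + 1)) = 0 := by
    rw [← aeval_def, aeval_comp]; simpa using h
  have h3 := (eval₂_reverse_eq_zero_iff (algebraMap ℤ ℂ) (α - 1) (f.comp (X + 1))).2 h2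
  rw [invOf_eq_inv] at h3
  rw [eval₂_mul, h3, mul_zero]

theorem fld_neg (a z : ℂ) (ha : a ≠ 0) (hz : z = 2 - a - a⁻¹) (hi : z.im = 0) (hr : 4 ≤ z.re) :
    a.im = 0 ∧ a.re < 0 := by
  have e : a * a + (z - 2) * a + 1 = 0 := by rw [hz]; field_simp; ring
  have e1 := congrArg Complex.re e
  have e2 := congrArg Complex.im e
  simp [hi] at e1 e2
  have hy : a.im = 0 := by
    by_contra hy
    have hx : 2 * a.re + (z.re - 2) = 0 := by
      apply mul_left_cancel₀ hy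
      linarith
    have hp : 0 < a.im * a.im := mul_self_pos.2 hy
    nlinarith
  refine ⟨hy, ?_⟩
  by_contra hx
  rw [hy] at e1
  nlinarith [not_lt.1 hx, mul_self_nonneg a.re]

theorem fld_row : FLD_s := by
  intro f α hf hneg h0 hα
  have hf0 : f ≠ 0 := fun e => by rw [e] at hf; simp at hf
  have h1 : α - 1 ≠ 0 := fun e => by
    have e1 : α = algebraMap ℤ ℂ 1 := by rw [map_one]; exact sub_eq_zero.1 e
    rw [e1, aeval_algebraMap_apply_eq_algebraMap_eval] at hα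
    exact hf.ne_zero ((FaithfulSMul.algebraMap_eq_zero_iff ℤ ℂ).1 hα)
  have hz : IsAlgebraic ℤ α := ⟨f, hf0, hα⟩
  have hq : IsIntegral ℚ α := (hz.extendScalars (S := ℚ) (RingHom.injective_int _)).isIntegral
  obtain ⟨β, hβ⟩ : ∃ β : ℂ, β = 2 - α - α⁻¹ := ⟨_, rfl⟩
  have hb : IsIntegral ℚ β := by
    rw [hβ]
    have h2 : IsIntegral ℚ (2 : ℂ) := by
      have := isIntegral_algebraMap (R := ℚ) (A := ℂ) (x := 2)
      simpa using this
    exact (h2.sub hq).sub hq.isAlgebraic.inv.isIntegral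
  have _ : FiniteDimensional ℚ ℚ⟮β⟯ := adjoin.finiteDimensional hb
  have hN : NumberField ℚ⟮β⟯ := NumberField.mk
  have hb0 : β ≠ 0 := by
    have : β = -((α - 1) ^ 2 / α) := by rw [hβ]; field_simp; ring
    rw [this]
    exact neg_ne_zero.2 (div_ne_zero (pow_ne_zero _ h1) h0)
  refine ⟨ℚ⟮β⟯, inferInstance, hN, AdjoinSimple.gen ℚ β, algebraMap _ ℂ, hβ, ?_, ?_, ?_, ?_⟩
  · exact fun e => hb0 (congrArg Subtype.val e)
  · exact (adjoin.powerBasis hb).adjoin_gen_eq_top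
  · refine (isIntegral_algHom_iff (algebraMap ℚ⟮β⟯ ℂ).toIntAlgHom (algebraMap ℚ⟮β⟯ ℂ).injective).1 ?_
    have e : (algebraMap ℚ⟮β⟯ ℂ).toIntAlgHom (AdjoinSimple.gen ℚ β)⁻¹ =
        -((α - 1)⁻¹ + (α - 1)⁻¹ * (α - 1)⁻¹) := by
      have e0 : (algebraMap ℚ⟮β⟯ ℂ).toIntAlgHom (AdjoinSimple.gen ℚ β)⁻¹ = β⁻¹ := by
        rw [map_inv₀]; rfl
      rw [e0]
      apply inv_eq_of_mul_eq_one_right
      rw [hβ]; field_simp; ring
    rw [e]
    have hs := fld_int f α hf h1 hα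
    exact (hs.add (hs.mul hs)).neg
  · rintro σ ⟨hi, hr⟩
    have hK : IsIntegral ℚ⟮β⟯ α := hq.tower_top
    have _ : FiniteDimensional ℚ⟮β⟯ ℚ⟮β⟯⟮α⟯ := adjoin.finiteDimensional hK
    obtain ⟨φ, hφ⟩ := IsAlgClosed.surjective_domRestrict_of_isAlgebraic (K := ℚ) (L := ℚ⟮β⟯)
      (M := ℂ) (E := ℚ⟮β⟯⟮α⟯) σ.toRatAlgHom
    obtain ⟨a, ha⟩ : ∃ a : ℚ⟮β⟯⟮α⟯, a = AdjoinSimple.gen ℚ⟮β⟯ α := ⟨_, rfl⟩
    have hav : algebraMap ℚ⟮β⟯⟮α⟯ ℂ a = α := by rw [ha]; rfl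
    have hinj := (algebraMap ℚ⟮β⟯⟮α⟯ ℂ).injective
    have ha0 : a ≠ 0 := fun e => h0 (by rw [← hav, e, map_zero])
    have hη : algebraMap ℚ⟮β⟯ ℚ⟮β⟯⟮α⟯ (AdjoinSimple.gen ℚ β) = 2 - a - a⁻¹ := by
      apply hinj
      rw [map_sub, map_sub, map_inv₀, hav, map_ofNat, ← hβ]
      rfl
    have hσ : σ (AdjoinSimple.gen ℚ β) = 2 - φ a - (φ a)⁻¹ := by
      have e := DFunLike.congr_fun hφ (AdjoinSimple.gen ℚ β)
      have e' : φ (algebraMap ℚ⟮β⟯ ℚ⟮β⟯⟮α⟯ (AdjoinSimple.gen ℚ β)) = σ (AdjoinSimple.gen ℚ β) := e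
      rw [← e', hη, map_sub, map_sub, map_inv₀, map_ofNat]
    have hfa : aeval a f = 0 := by
      apply hinj
      have e := aeval_algHom_apply (algebraMap ℚ⟮β⟯⟮α⟯ ℂ).toIntAlgHom a f
      have e' : aeval (algebraMap ℚ⟮β⟯⟮α⟯ ℂ a) f = algebraMap ℚ⟮β⟯⟮α⟯ ℂ (aeval a f) := e
      rw [← e', hav, hα, map_zero]
    have hfφ : aeval (φ a) f = 0 := by
      have e := aeval_algHom_apply (φ : ℚ⟮β⟯⟮α⟯ →+* ℂ).toIntAlgHom a f
      have e' : aeval (φ a) f = φ (aeval a f) := e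
      rw [e', hfa, map_zero]
    have hφ0 : φ a ≠ 0 := (map_ne_zero φ).2 ha0
    obtain ⟨k1, k2⟩ := fld_neg (φ a) _ hφ0 hσ hi hr
    apply hneg _ k2
    have e : φ a = algebraMap ℝ ℂ (φ a).re := Complex.ext (by simp) (by simp [k1])
    rw [e, aeval_algebraMap_apply] at hfφ
    exact (algebraMap ℝ ℂ).injective (by rw [hfφ, map_zero])

end Pool.Agent.MP_bc14f3_gt.Z66
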