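import Pool.Agent.MP_bc14f3_gt.Z66.Defs

set_option autoImplicit false

namespace Pool.Agent.MP_bc14f3_gt.Z66

open Filter Topology Polynomial

-- BEGIN
theorem four_row (hINT : INT_s) : FOUR_s := by
  intro ι _ TP u v g e c hC hD hE h1 hN hO
  have huv : ∀ i, u i * v i = 1 := fun i => congrFun hD.uv i
  have hgu : ∀ i, g i * (u i - 1) = 1 := fun i => congrFun hD.gu i
  have hu : ∀ i, u i ≠ 0 := fun i => left_ne_zero_of_mul_eq_one (huv i)
  have hg : ∀ i, g i ≠ 0 := fun i => left_ne_zero_of_mul_eq_one (hgu i)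
  have hu1 : ∀ i, 1 + u i ≠ 0 := fun i => by
    have h2 : 1 + u i = u i * (1 + v i) := by linear_combination -huv i
    rw [h2]; exact mul_ne_zero (hu i) (hD.ne i)
  have hv : ∀ i, v i = (u i)⁻¹ := fun i => eq_inv_of_mul_eq_one_right (huv i)
  have fix : ∀ F : ι → ℂ, (∀ i, e i = 0 → F (c i) = (starRingEnd ℂ) (F i)) →
      Gd TP fun i => (1 - e i) * g i * F i := by
    intro F hF
    obtain ⟨P, hP⟩ := hINT ι (u * g * g) (fun i => (1 - e i) * F i) c hE.inj hE.yc fun i => by
      rcases hD.ind i with h2 | h2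
      · simp only [hE.ec i, h2.1, sub_self, zero_mul, map_zero]
      · simp only [hE.ec i, h2.1, sub_zero, one_mul]
        exact hF i h2.1
    have e1 : (fun i => (1 - e i) * g i * F i) =
        fun i => (1 - e i) * g i * aeval ((u * g * g) i) P := by
      funext i
      rw [hP i]
      rcases hD.ind i with h2 | h2 <;> rw [h2.1] <;> ring
    rw [e1]; exact hO P
  refine ⟨hC.ofA _ (subset_closure h1), ?_, hC.ofB _ (subset_closure hN.2.2) ?_, ?_⟩
  · have h2 := hC.add _ _ (fix (fun i => -(1 + v i) * (u i - 1) - 1) fun i hi => by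
      simp only [hv, hE.uc i hi, map_sub, map_mul, map_neg, map_add, map_one, map_inv₀])
      (hC.ofA _ hN.1)
    have e1 : -(1 + v) = (fun i => (1 - e i) * g i * (-(1 + v i) * (u i - 1) - 1)) +
        ((1 - e) * g - e * (1 + v)) := by
      funext i
      simp only [Pi.add_apply, Pi.neg_apply, Pi.mul_apply, Pi.sub_apply, Pi.one_apply]
      rcases hD.ind i with h3 | h3 <;> rw [h3.1]
      · ring
      · linear_combination (1 + v i) * hgu i
    rw [e1]; exact h2
  · rw [Pi.isUnit_iff]
    intro i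
    rw [isUnit_iff_ne_zero]
    exact inv_ne_zero (hu1 i)
  · have h3 : IsUnit ((1 - e) * g - e * (1 + u)⁻¹) := by
      rw [Pi.isUnit_iff]
      intro i
      rw [isUnit_iff_ne_zero]
      simp only [Pi.add_apply, Pi.inv_apply, Pi.mul_apply, Pi.sub_apply, Pi.one_apply]
      rcases hD.ind i with h3 | h3 <;> rw [h3.1]
      · rw [sub_self, zero_mul, one_mul, zero_sub]
        exact neg_ne_zero.2 (inv_ne_zero (hu1 i))
      · rw [sub_zero, one_mul, zero_mul, sub_zero]
        exact hg i
    have h2 := hC.add _ _ (fix (fun i => -(1 + u i)⁻¹ * (u i - 1) - 1) fun i hi => by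
      simp only [hE.uc i hi, map_sub, map_mul, map_neg, map_add, map_one, map_inv₀])
      (hC.ofB _ hN.2.1 h3)
    have e1 : -(1 + u)⁻¹ = (fun i => (1 - e i) * g i * (-(1 + u i)⁻¹ * (u i - 1) - 1)) +
        ((1 - e) * g - e * (1 + u)⁻¹) := by
      funext i
      simp only [Pi.add_apply, Pi.neg_apply, Pi.inv_apply, Pi.mul_apply, Pi.sub_apply, Pi.one_apply]
      rcases hD.ind i with h3 | h3 <;> rw [h3.1]
      · ring
      · linear_combination (1 + u i)⁻¹ * hgu i
    rw [e1]; exact h2

end Pool.Agent.MP_bc14f3_gt.Z66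

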