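import Pool.Agent.MP_bc14f3_gt.Z66.Defs

set_option autoImplicit false

namespace Pool.Agent.MP_bc14f3_gt.Z66

open Filter Topology Polynomial

theorem grp_cast {B : Type} [CommRing B] {T : Bool → B} {κ : Bool} {x y : B} (h : Tan T true κ x)
    (e : x = y) : Tan T true κ y := e ▸ h

theorem grp_par {K B : Type} [Field K] [CommRing B] {T : Bool → B} (j : K →+* B) {a c : B}
    (hc : a * c = 1) {κ : Bool} {x y z : K} (hx : Tan T true κ (a * j x))
    (hy : Tan T true false (a * j y)) (h : x + y ≠ 0) (hz : z = x * y * (x + y)⁻¹) :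
    Tan T true κ (a * j z) := by
  have h1 : j (x + y) * j (x + y)⁻¹ = 1 := by rw [← map_mul, mul_inv_cancel₀ h, map_one]
  refine grp_cast (hx.par hy (r := c * j (x + y)⁻¹) ?_) ?_
  · rw [map_add] at h1
    linear_combination (a * c) * h1 + hc
  · rw [hz, map_mul, map_mul]
    linear_combination (a * j x * j y * j (x + y)⁻¹) * hc

theorem grp_row (hE : EXA_s) (hN : END_s) (hC : CLA_s) : GRP_s := by
  intro K _ _ η B _ Φ j U V S hη hadj hint hU hall
  have uv := S.uv
  have e1 : j η * j η⁻¹ = 1 := by rw [← map_mul, mul_inv_cancel₀ hη, map_one]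
  have hc : (1 + V) * ((1 + U) * j η⁻¹) = 1 := by
    rw [S.eta] at e1
    linear_combination e1 + j η⁻¹ * uv
  have hv : ∀ σ, 1 + Φ V σ ≠ 0 := fun σ h => by
    have h1 := congrFun (congrArg Φ hc) σ
    rw [map_mul, map_add, map_one, Pi.mul_apply, Pi.add_apply, Pi.one_apply, h, zero_mul] at h1
    exact zero_ne_one h1
  have he : ∀ σ : K →+* ℂ, Φ U σ + 2 + Φ V σ = σ η := fun σ => by
    rw [← S.psi, S.eta, map_add, map_add, map_ofNat]
    rfl
  have hη' : ∀ σ : K →+* ℂ, σ η ≠ 0 := fun σ => (_root_.map_ne_zero σ).2 hη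
  have hΦ : ∀ x σ, Φ ((1 + V) * j x) σ = (1 + Φ V σ) * σ x := fun x σ => by
    rw [map_mul, map_add, map_one, Pi.mul_apply, Pi.add_apply, Pi.one_apply, S.psi]
  obtain ⟨g, hg⟩ := hU.exists_left_inv
  have b0 : Tan (TT U V) true false ((1 + V) * j (η * 1)⁻¹) := by
    have P : Par (TT U V) U V g := ⟨rfl, rfl, uv, hg⟩
    have h1 : U * g * (1 - V ^ 1) = 1 := by linear_combination hg - g * uv
    have h2 : g * (1 - V ^ 1) = V := by linear_combination V * hg - g * uv
    refine grp_cast ((P.base false 1 1 rfl rfl).top (r := -((1 + U) * j η⁻¹)) ?_) ?_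
    · linear_combination ((1 + V) * ((1 + U) * j η⁻¹)) * h1 + hc
    · rw [h1, h2, mul_one η]
      linear_combination j η⁻¹ * uv
  have aU : ∀ x ∈ {x | Tan (TT U V) true true ((1 + V) * j x)},
      ∀ y ∈ {x | Tan (TT U V) true true ((1 + V) * j x)},
        x + y ∈ {x | Tan (TT U V) true true ((1 + V) * j x)} := fun x hx y hy =>
    grp_cast (Tan.ser hx hy) (by rw [map_add, mul_add (1 + V)])
  have aW : ∀ x ∈ {w | w = 0 ∨ Tan (TT U V) true false ((1 + V) * j (η * w)⁻¹)},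
      ∀ y ∈ {w | w = 0 ∨ Tan (TT U V) true false ((1 + V) * j (η * w)⁻¹)},
        x + y ∈ {w | w = 0 ∨ Tan (TT U V) true false ((1 + V) * j (η * w)⁻¹)} := by
    intro x hx y hy
    by_cases hx0 : x = 0
    · rwa [hx0, zero_add]
    by_cases hy0 : y = 0
    · rwa [hy0, add_zero]
    by_cases h : x + y = 0
    · exact Or.inl h
    have h1 : (η * x)⁻¹ + (η * y)⁻¹ = (x + y) / (η * x * y) := by
      field_simp
      ring
    refine Or.inr (grp_par j hc (hx.resolve_left hx0) (hy.resolve_left hy0) ?_ ?_)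
    · rw [h1]
      exact div_ne_zero h (mul_ne_zero (mul_ne_zero hη hx0) hy0)
    · rw [h1]
      field_simp
  have cU : ∀ y ∈ closure (TPo Φ U V true), (fun σ => y σ * (1 + Φ V σ)⁻¹) ∈ closure
      (NumberField.canonicalEmbedding K '' {x | Tan (TT U V) true true ((1 + V) * j x)}) := by
    intro y hy
    refine map_mem_closure (f := fun (y : (K →+* ℂ) → ℂ) σ => y σ * (1 + Φ V σ)⁻¹) (by fun_prop)
      hy ?_
    rintro _ ⟨ρ, hρ, rfl⟩
    obtain ⟨x, rfl⟩ := S.sym _ _ hρ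
    refine ⟨x, hρ, funext fun σ => ?_⟩
    show σ x = Φ ((1 + V) * j x) σ * (1 + Φ V σ)⁻¹
    rw [hΦ, mul_comm (1 + Φ V σ), mul_inv_cancel_right₀ (hv σ)]
  have cW : ∀ y ∈ closure (TPo Φ U V false), (∀ σ, y σ ≠ 0) →
      (fun σ : K →+* ℂ => (1 + Φ V σ) * (σ η * y σ)⁻¹) ∈ closure (NumberField.canonicalEmbedding K ''
        {w | w = 0 ∨ Tan (TT U V) true false ((1 + V) * j (η * w)⁻¹)}) := by
    intro y hy h0
    have hF : ContinuousAt (fun (y : (K →+* ℂ) → ℂ) (σ : K →+* ℂ) =>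
        (1 + Φ V σ) * (σ η * y σ)⁻¹) y :=
      continuousAt_pi.2 fun σ => continuousAt_const.mul
        ((continuousAt_const.mul (continuous_apply σ).continuousAt).inv₀
          (mul_ne_zero (hη' σ) (h0 σ)))
    refine closure_mono ?_ (mem_closure_image hF hy)
    rintro _ ⟨_, ⟨ρ, hρ, rfl⟩, rfl⟩
    obtain ⟨x, rfl⟩ := S.sym _ _ hρ
    refine ⟨(η * x)⁻¹, Or.inr (grp_cast hρ ?_), funext fun σ => ?_⟩
    · rw [mul_inv η x, mul_inv_cancel_left₀ hη, inv_inv]
    · show σ (η * x)⁻¹ = (1 + Φ V σ) * (σ η * Φ ((1 + V) * j x) σ)⁻¹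
      rw [hΦ, map_inv₀, map_mul, mul_left_comm, mul_inv (1 + Φ V σ), mul_inv_cancel_left₀ (hv σ)]
  refine hN K η _ _ _ hη hint (grp_cast (hC B U V uv) (by rw [map_one, mul_one])) (Or.inr b0) aU aW
    (hE K η _ hadj aU fun k => ⟨?_, ?_⟩) (hE K η _ hadj aW fun k => ⟨?_, ?_⟩) fun a ha w hw => ?_
  · refine Set.mem_of_eq_of_mem (funext fun σ => ?_) (cU _ ((hall k).1 true))
    show σ (η ^ k) = _
    rw [he, zpow_natCast, mul_comm (1 + Φ V σ), mul_inv_cancel_right₀ (hv σ), map_pow]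
  · refine Set.mem_of_eq_of_mem (funext fun σ => ?_) (cU _ ((hall k).2 true))
    show σ (-η ^ k) = _
    rw [he, zpow_natCast, mul_comm (1 + Φ V σ), neg_mul, mul_inv_cancel_right₀ (hv σ), map_neg,
      map_pow]
  · refine Set.mem_of_eq_of_mem (funext fun σ => ?_) (cW _ ((hall (-(k + 1 : ℕ))).1 false)
      fun σ => mul_ne_zero (hv σ) (zpow_ne_zero _ (he σ ▸ hη' σ)))
    show σ (η ^ k) = _
    have h1 := hv σ
    have h2 := hη' σ
    rw [he, zpow_neg, zpow_natCast, map_pow]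
    field_simp
    ring
  · refine Set.mem_of_eq_of_mem (funext fun σ => ?_) (cW _ ((hall (-(k + 1 : ℕ))).2 false)
      fun σ => neg_ne_zero.2 (mul_ne_zero (hv σ) (zpow_ne_zero _ (he σ ▸ hη' σ))))
    show σ (-η ^ k) = _
    have h1 := hv σ
    have h2 := hη' σ
    rw [he, zpow_neg, zpow_natCast, map_neg, map_pow]
    field_simp
    ring
  · by_cases hw0 : w = 0
    · rw [hw0, mul_zero, add_zero, div_one, div_one]
      exact ⟨fun h => absurd h one_ne_zero, fun _ => ⟨ha, Or.inl rfl⟩⟩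
    have hw' := hw.resolve_left hw0
    have h1 : a + (η * w)⁻¹ = (1 + η * a * w) / (η * w) := by
      field_simp
      ring
    have h2 : Tan (TT U V) true false ((1 + V) * j ((1 + η * a * w) / (η * w))) :=
      grp_cast (Tan.ser ha hw') (by rw [← h1, map_add, mul_add (1 + V)])
    refine ⟨fun h => grp_cast h2 (by rw [h, zero_div, map_zero, mul_zero]), fun h => ⟨?_, ?_⟩⟩
    · refine grp_par j hc ha hw' ?_ ?_
      · rw [h1]
        exact div_ne_zero h (mul_ne_zero hη hw0)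
      · rw [h1]
        field_simp
    · exact Or.inr (grp_cast h2 (by rw [← mul_div_assoc, inv_div]))

end Pool.Agent.MP_bc14f3_gt.Z66
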