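import Pool.Agent.MP_bc14f3_gt.Z66.Defs

set_option autoImplicit false

namespace Pool.Agent.MP_bc14f3_gt.Z66

open Polynomial

theorem int_re (P : ℂ[X]) : ∃ Q : ℝ[X], ∀ z : ℂ,
    2 * aeval z Q = P.eval z + (starRingEnd ℂ) (P.eval ((starRingEnd ℂ) z)) := by
  induction P using Polynomial.induction_on' with
  | add p q hp hq =>
    obtain ⟨Q, h⟩ := hp
    obtain ⟨Q', h'⟩ := hq
    refine ⟨Q + Q', fun z => ?_⟩
    rw [map_add, eval_add, eval_add, map_add, mul_add, h, h']
    ring
  | monomial n a =>
    refine ⟨monomial n a.re, fun z => ?_⟩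
    rw [aeval_monomial, eval_monomial, eval_monomial, map_mul, map_pow, Complex.conj_conj,
      ← add_mul, Complex.add_conj, Complex.coe_algebraMap]
    push_cast
    ring

theorem int_row : INT_s := by
  intro ι _ y F c hy h1 h2
  classical
  obtain ⟨Q, hQ⟩ := int_re (Lagrange.interpolate Finset.univ y F)
  have h3 : ∀ i, (Lagrange.interpolate Finset.univ y F).eval (y i) = F i := fun i =>
    Lagrange.eval_interpolate_at_node F hy.injOn (Finset.mem_univ i)
  refine ⟨Q, fun i => ?_⟩
  have h4 := hQ (y i)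
  rw [← h1, h3, h3, h2, Complex.conj_conj] at h4
  linear_combination h4 / 2

end Pool.Agent.MP_bc14f3_gt.Z66
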