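import Pool.Agent.MP_bc14f3_gt.Z66.Defs

namespace Pool.Agent.MP_bc14f3_gt.Z66

open Filter Topology Polynomial

theorem neg_lim {ι : Type} [Fintype ι] {TP : Bool → Set (ι → ℂ)} {BP : Bool → Set (Q4 ι)}
    {u v g e : ι → ℂ} (S : Sys TP BP u v g) (hR : Rec v e) (κ : Bool) (p q r : ι → ℂ)
    (hb : ∀ n : ℕ, (u * g * (v ^ (2 * n + 2) * p * (v ^ (2 * n + 2) * q) - 1),
      u * g * (1 - v ^ (2 * n + 2) * q), g * (1 - v ^ (2 * n + 2) * p), 0) ∈ BP κ)
    (hr : u * g * (e * p * (e * q) - 1) * r = 1) :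
    0 - g * (1 - e * p) * r * (u * g * (1 - e * q)) ∈ closure (TP κ) := by
  have key := cl_map (S' := BP κ) (fun x : ι → ℂ =>
    ((u * g * (x * p * (x * q) - 1), u * g * (1 - x * q), g * (1 - x * p), 0) : Q4 ι)) hR
    (by fun_prop) (Eventually.of_forall (by
      rintro _ ⟨n, rfl⟩
      exact hb n))
  obtain ⟨s, h1, h2, h3⟩ := loc_inv (fun x : Q4 ι => x.1)
    (u * g * (e * p * (e * q) - 1), u * g * (1 - e * q), g * (1 - e * p), 0) r (by fun_prop) hr
  have h := cl_map (S' := TP κ) (fun x : Q4 ι => x.2.2.2 - x.2.2.1 * s x * x.2.1) key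
    (by fun_prop) (h3.mono fun x hx h => S.top κ _ _ _ _ _ h hx)
  simpa only [h2] using h

theorem neg_row : NEG_s := by
  intro ι _ TP BP u v g e S D hR
  have huv := D.uv
  have hg := D.gu
  have hee : e * e = e := by
    funext i
    rcases D.ind i with h | h <;> simp [h.1]
  have hw : (1 + u) * (1 + u)⁻¹ = 1 := by
    funext i
    have a : u i * v i = 1 := congrFun huv i
    have b : 1 + u i ≠ 0 := fun c => D.ne i (by linear_combination v i * c - a)
    simp only [Pi.mul_apply, Pi.inv_apply, Pi.add_apply, Pi.one_apply]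
    exact mul_inv_cancel₀ b
  unfold Neg
  generalize (1 + u)⁻¹ = w at hw ⊢
  have p1 : ∀ n : ℕ, v ^ (2 * n + 1) = v ^ (2 * n + 2) * u := fun n => by
    rw [pow_succ v (2 * n + 1), mul_assoc, mul_comm v u, huv, mul_one]
  refine ⟨?_, ?_, ?_⟩
  · have h := neg_lim S hR true u (v ^ 2) (v - 1 - e * v) (fun n => by
      have b := S.base true (2 * n + 1) (2 * n + 2 + 2) (by omega) (by simp)
      rwa [p1, pow_add v (2 * n + 2) 2] at b) (by grind)
    have e1 : 0 - g * (1 - e * u) * (v - 1 - e * v) * (u * g * (1 - e * v ^ 2)) =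
        (1 - e) * g - e * (1 + v) := by grind
    rwa [e1] at h
  · have h := neg_lim S hR false u u ((1 - e) * (v - 1) + e * (v * w)) (fun n => by
      have b := S.base false (2 * n + 1) (2 * n + 1) (by omega) (by simp)
      rwa [p1] at b) (by grind)
    have e1 : 0 - g * (1 - e * u) * ((1 - e) * (v - 1) + e * (v * w)) * (u * g * (1 - e * u)) =
        (1 - e) * g - e * w := by grind
    rwa [e1] at h
  · have h := S.top false _ _ _ _ (-(u * w)) (S.base false 1 1 rfl (by simp)) (by grind)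
    have e1 : 0 - g * (1 - v ^ 1) * -(u * w) * (u * g * (1 - v ^ 1)) = w := by grind
    rwa [e1] at h

end Pool.Agent.MP_bc14f3_gt.Z66
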