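import Pool.Agent.MP_bc14f3_gt.Z66.Defs

set_option autoImplicit false

namespace Pool.Agent.MP_bc14f3_gt.Z66

open Filter Topology Polynomial

-- BEGIN
theorem off_row (hPOS : POS_s) : OFF_s := by
  intro ι _ TP u v g e c hC hD hE h0 hS hP P
  obtain ⟨h, hh, hy⟩ := hPOS ι (u * g * g) hE.pos
  have hz : Gd TP 0 := hC.ofA 0 (subset_closure h0)
  have hu : ∀ i, u i ≠ 0 := fun i => left_ne_zero_of_mul_eq_one (congrFun hD.uv i)
  have hg : ∀ i, g i ≠ 0 := fun i => left_ne_zero_of_mul_eq_one (congrFun hD.gu i)
  have hA : ∀ (k : ℕ) (a : ℝ), 0 ≤ a →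
      Gd TP fun i => (1 - e i) * g i * ((a : ℂ) * (u * g * g) i ^ k) := by
    intro k a ha
    rcases ha.eq_or_lt with rfl | ha
    · have e0 : (fun i => (1 - e i) * g i * (((0 : ℝ) : ℂ) * (u * g * g) i ^ k)) = 0 := by
        funext i; simp
      rw [e0]; exact hz
    · have h1 := hS _ a (hP k) ?_ ?_ ha
      · have e1 : (fun i => (1 - e i) * g i * ((a : ℂ) * (u * g * g) i ^ k)) =
            (a : ℂ) • ((1 - e) * g * (u * g * g) ^ k) := by
          funext i
          simp only [Pi.smul_apply, Pi.mul_apply, Pi.sub_apply, Pi.one_apply, Pi.pow_apply,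
            smul_eq_mul]
          ring
        rw [e1]; exact h1
      · funext i
        simp only [Pi.mul_apply, Pi.sub_apply, Pi.one_apply, Pi.pow_apply, Pi.zero_apply]
        rcases hD.ind i with h2 | h2 <;> rw [h2.1] <;> ring
      · rw [Pi.isUnit_iff]
        intro i
        rw [isUnit_iff_ne_zero]
        simp only [Pi.add_apply, Pi.mul_apply, Pi.sub_apply, Pi.one_apply, Pi.pow_apply]
        rcases hD.ind i with h2 | h2 <;> rw [h2.1]
        · simp
        · rw [sub_zero, one_mul, add_zero]
          exact mul_ne_zero (hg i) (pow_ne_zero _ (mul_ne_zero (mul_ne_zero (hu i) (hg i)) (hg i)))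
  have hB : ∀ (s : Finset ℕ) (f : ℕ → ι → ℂ), (∀ k, Gd TP (f k)) → Gd TP (∑ k ∈ s, f k) := by
    intro s f hf
    exact Finset.sum_induction f (Gd TP) hC.add hz fun k _ => hf k
  induction P using Polynomial.induction_on' with
  | add p q hp hq =>
    have e1 : (fun i => (1 - e i) * g i * aeval ((u * g * g) i) (p + q)) =
        (fun i => (1 - e i) * g i * aeval ((u * g * g) i) p) +
          fun i => (1 - e i) * g i * aeval ((u * g * g) i) q := by
      funext i
      rw [map_add, mul_add]; rfl
    rw [e1]; exact hC.add _ _ hp hq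
  | monomial n a =>
    rcases le_total 0 a with ha | ha
    · have e1 : (fun i => (1 - e i) * g i * aeval ((u * g * g) i) (monomial n a)) =
          fun i => (1 - e i) * g i * ((a : ℂ) * (u * g * g) i ^ n) := by
        funext i
        rw [aeval_monomial]; rfl
      rw [e1]; exact hA n a ha
    · have e1 : (fun i => (1 - e i) * g i * aeval ((u * g * g) i) (monomial n a)) =
          ∑ k ∈ Finset.range (h.natDegree + 1), fun i =>
            (1 - e i) * g i * (((-a * h.coeff k : ℝ) : ℂ) * (u * g * g) i ^ (k + n)) := by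
        funext i
        have h1 := hy i
        rw [aeval_eq_sum_range] at h1
        have h2 : (algebraMap ℝ ℂ a) * (u * g * g) i ^ n = (-(a : ℂ) * (u * g * g) i ^ n) * (-1) := by
          rw [show algebraMap ℝ ℂ a = (a : ℂ) from rfl]; ring
        rw [Finset.sum_apply, aeval_monomial, h2, ← h1, Finset.mul_sum, Finset.mul_sum]
        refine Finset.sum_congr rfl fun k _ => ?_
        rw [Complex.real_smul]
        push_cast
        ring
      rw [e1]
      exact hB _ _ fun k => hA _ _ (mul_nonneg (neg_nonneg.2 ha) (hh k))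

end Pool.Agent.MP_bc14f3_gt.Z66

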