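import Pool.Agent.MP_bc14f3_gt.Z66.Defs

set_option autoImplicit false

namespace Pool.Agent.MP_bc14f3_gt.Z66

open Polynomial

theorem pos_pow {y : ℂ} (hy : ¬(y.im = 0 ∧ 0 ≤ y.re)) : ∃ k : ℕ, 0 < k ∧ (y ^ k).re ≤ 0 := by
  have h0 : y.arg ≠ 0 := fun h => hy (Complex.arg_eq_zero_iff.1 h).symm
  have ha : 0 < |y.arg| := abs_pos.2 h0
  have hb : |y.arg| ≤ Real.pi := Complex.abs_arg_le_pi y
  have hp := Real.pi_pos
  have hq : 0 < Real.pi / 2 / |y.arg| := by positivity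
  refine ⟨⌈Real.pi / 2 / |y.arg|⌉₊, Nat.ceil_pos.2 hq, ?_⟩
  have h1 := Nat.le_ceil (Real.pi / 2 / |y.arg|)
  have h2 := Nat.ceil_lt_add_one hq.le
  generalize ⌈Real.pi / 2 / |y.arg|⌉₊ = k at h1 h2
  rw [div_le_iff₀ ha] at h1
  have h3 : (k : ℝ) * |y.arg| ≤ Real.pi + Real.pi / 2 := by
    have h4 : (k : ℝ) * |y.arg| ≤ (Real.pi / 2 / |y.arg| + 1) * |y.arg| :=
      mul_le_mul_of_nonneg_right h2.le ha.le
    rw [add_mul, div_mul_cancel₀ _ ha.ne'] at h4
    linarith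
  have h5 := Real.cos_nonpos_of_pi_div_two_le_of_le h1 h3
  have h6 : Real.cos (k * |y.arg|) = Real.cos (k * y.arg) := by
    rw [← Real.cos_abs (k * y.arg), abs_mul, Nat.abs_cast]
  have h7 : y ^ k = ((‖y‖ ^ k : ℝ) : ℂ) * Complex.exp (((k * y.arg : ℝ) : ℂ) * Complex.I) := by
    conv_lhs => rw [← Complex.norm_mul_exp_arg_mul_I y]
    rw [mul_pow, ← Complex.exp_nat_mul]
    push_cast
    rw [mul_assoc]
  rw [h7, Complex.re_ofReal_mul, Complex.exp_ofReal_mul_I_re, ← h6]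
  exact mul_nonpos_of_nonneg_of_nonpos (by positivity) h5

theorem pos_one {y : ℂ} (hy : ¬(y.im = 0 ∧ 0 ≤ y.re)) :
    ∃ q : ℝ[X], ((∀ k, 0 ≤ q.coeff k) ∧ 0 < q.coeff 0) ∧ aeval y q = 0 := by
  obtain ⟨k, hk, h⟩ := pos_pow hy
  have h0 : y ≠ 0 := fun e => hy (by simp [e])
  have h1 : 0 < Complex.normSq (y ^ k) := Complex.normSq_pos.2 (pow_ne_zero _ h0)
  refine ⟨X ^ (2 * k) + C (-2 * (y ^ k).re) * X ^ k + C (Complex.normSq (y ^ k)),
    ⟨fun j => ?_, ?_⟩, ?_⟩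
  · rw [coeff_add, coeff_add, coeff_C_mul, coeff_X_pow, coeff_X_pow, coeff_C]
    have a1 : (0 : ℝ) ≤ if j = 2 * k then 1 else 0 := by split_ifs <;> norm_num
    have a2 : (0 : ℝ) ≤ if j = k then 1 else 0 := by split_ifs <;> norm_num
    have a3 : (0 : ℝ) ≤ if j = 0 then Complex.normSq (y ^ k) else 0 := by
      split_ifs
      · exact h1.le
      · exact le_rfl
    have a4 : 0 ≤ -2 * (y ^ k).re := by linarith
    have a5 := mul_nonneg a4 a2
    linarith
  · rw [coeff_add, coeff_add, coeff_C_mul, coeff_X_pow, coeff_X_pow, coeff_C, if_neg (by omega),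
      if_neg (by omega), if_pos rfl]
    linarith
  · rw [map_add, map_add, map_mul, map_pow, map_pow, aeval_X, aeval_C, aeval_C, mul_comm 2 k,
      pow_mul]
    generalize y ^ k = w
    have e1 := Complex.mul_conj w
    have e2 := Complex.add_conj w
    simp only [Complex.coe_algebraMap]
    push_cast at e1 e2 ⊢
    linear_combination w * e2 - e1

theorem pos_row : POS_s := by
  intro ι _ y hy
  classical
  choose q hq hz using fun i => pos_one (hy i)
  have h1 : (∀ k, 0 ≤ (∏ i, q i).coeff k) ∧ 0 < (∏ i, q i).coeff 0 := by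
    refine Finset.prod_induction q (fun p : ℝ[X] => (∀ k, 0 ≤ p.coeff k) ∧ 0 < p.coeff 0)
      (fun a b ha hb => ⟨fun k => ?_, ?_⟩) ⟨fun k => ?_, by simp⟩ fun i _ => hq i
    · rw [coeff_mul]
      exact Finset.sum_nonneg fun x _ => mul_nonneg (ha.1 _) (hb.1 _)
    · rw [mul_coeff_zero]
      exact mul_pos ha.2 hb.2
    · rw [coeff_one]
      split_ifs <;> norm_num
  have h2 : ∀ i, aeval (y i) (∏ j, q j) = 0 := fun i => by
    rw [map_prod]
    exact Finset.prod_eq_zero (Finset.mem_univ i) (hz i)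
  generalize ∏ i, q i = p at h1 h2
  refine ⟨C (p.coeff 0)⁻¹ * (p - C (p.coeff 0)), fun k => ?_, fun i => ?_⟩
  · rw [coeff_C_mul, coeff_sub, coeff_C]
    refine mul_nonneg (inv_pos.2 h1.2).le ?_
    split_ifs with h
    · rw [h, sub_self]
    · rw [sub_zero]
      exact h1.1 k
  · rw [map_mul, map_sub, h2, aeval_C, aeval_C, zero_sub, mul_neg, ← map_mul,
      inv_mul_cancel₀ h1.2.ne', map_one]

end Pool.Agent.MP_bc14f3_gt.Z66
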