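import Pool.Agent.MP_bc14f3_gt.Z66.Defs

/-! Row POW of campaign h66z: the powers of `y` through the channel. -/

set_option autoImplicit false

namespace Pool.Agent.MP_bc14f3_gt.Z66

open Filter Topology Polynomial

-- BEGIN
theorem pow_unit {ι : Type} {x e : ι → ℂ} (he : ∀ i, e i = 1 ∨ e i = 0) (hx : x * e = 0)
    (hn : ∀ i, e i = 0 → x i ≠ 0) : IsUnit (x + e) := by
  refine Pi.isUnit_iff.2 fun i => isUnit_iff_ne_zero.2 ?_
  rcases he i with h | h
  · have h1 : x i * e i = 0 := congrFun hx i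
    rw [h, mul_one] at h1
    rw [Pi.add_apply, h, h1, zero_add]
    exact one_ne_zero
  · rw [Pi.add_apply, h, add_zero]
    exact hn i h

theorem pow_row : POW_s := by
  intro ι _ TP u v g e hC hD h0 hch hs k
  have he : ∀ i, e i = 1 ∨ e i = 0 := fun i => (hD.ind i).imp And.left And.left
  have hee : (1 - e) * e = 0 := by
    funext i
    rcases he i with h | h <;> simp [h]
  have hu : ∀ i, u i ≠ 0 := fun i => left_ne_zero_of_mul_eq_one (congrFun hD.uv i)
  have hg : ∀ i, g i ≠ 0 := fun i => left_ne_zero_of_mul_eq_one (congrFun hD.gu i)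
  have hne : ∀ (n : ℕ) i, e i = 0 → ((1 - e) * g * (u * g * g) ^ n) i ≠ 0 := by
    intro n i hi
    simp [hi, hu i, hg i]
  induction k with
  | zero =>
    have h := hch 0 1 0 (subset_closure h0) (zero_mul _) (by simp)
    refine hC.ofA _ ?_
    simpa using h
  | succ k ih =>
    have hn1 := hne (k + 1)
    rw [pow_succ, ← mul_assoc] at hn1 ⊢
    have hn := hne k
    have hxe : (1 - e) * g * (u * g * g) ^ k * e = 0 := by
      have : (1 - e) * g * (u * g * g) ^ k * e = (1 - e) * e * (g * (u * g * g) ^ k) := by ring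
      rw [this, hee, zero_mul]
    generalize (1 - e) * g * (u * g * g) ^ k = x at ih hn1 hn hxe ⊢
    have hxu := pow_unit he hxe hn
    have hd : Tendsto (fun m : ℕ => ((1 / ((m : ℝ) + 1) : ℝ) : ℂ)) atTop (𝓝 0) := by
      have h := (Complex.continuous_ofReal.tendsto 0).comp
        (tendsto_one_div_add_atTop_nhds_zero_nat (𝕜 := ℝ))
      rwa [Complex.ofReal_zero] at h
    have h1 : Tendsto (fun m : ℕ => 1 + ((1 / ((m : ℝ) + 1) : ℝ) : ℂ) • x * (u * g)) atTop
        (𝓝 1) := by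
      have h := ((hd.smul_const x).mul_const (u * g)).const_add 1
      rwa [zero_smul, zero_mul, add_zero] at h
    have h2 : Tendsto (fun m : ℕ => (1 + ((1 / ((m : ℝ) + 1) : ℝ) : ℂ) • x * (u * g))⁻¹) atTop
        (𝓝 1) := by
      refine tendsto_pi_nhds.2 fun i => ?_
      have h := (tendsto_pi_nhds.1 h1 i).inv₀ (by simp)
      simpa using h
    have h3 : Tendsto (fun m : ℕ => ((1 / ((m : ℝ) + 1) : ℝ) : ℂ) • ((1 - e) * g) +
        (1 + ((1 / ((m : ℝ) + 1) : ℝ) : ℂ) • x * (u * g))⁻¹ * (x * (u * g * g))) atTop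
        (𝓝 (x * (u * g * g))) := by
      have h := (hd.smul_const ((1 - e) * g)).add (h2.mul_const (x * (u * g * g)))
      rwa [zero_smul, zero_add, one_mul] at h
    have e1 : ∀ᶠ m : ℕ in atTop, ∀ i,
        (1 + ((1 / ((m : ℝ) + 1) : ℝ) : ℂ) • x * (u * g)) i ≠ 0 :=
      eventually_all.2 fun i => (tendsto_pi_nhds.1 h1 i).eventually_ne (by simp)
    have e2 : ∀ᶠ m : ℕ in atTop, ∀ i, e i = 0 → (((1 / ((m : ℝ) + 1) : ℝ) : ℂ) • ((1 - e) * g) +
        (1 + ((1 / ((m : ℝ) + 1) : ℝ) : ℂ) • x * (u * g))⁻¹ * (x * (u * g * g))) i ≠ 0 := by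
      refine eventually_all.2 fun i => ?_
      by_cases hi : e i = 0
      · exact ((tendsto_pi_nhds.1 h3 i).eventually_ne (hn1 i hi)).mono fun m hm _ => hm
      · exact Eventually.of_forall fun m h => absurd h hi
    refine hC.cls.mem_of_tendsto h3 ?_
    filter_upwards [e1, e2] with m hm1 hm2
    have hp : (0 : ℝ) < 1 / ((m : ℝ) + 1) := by positivity
    have hN : ((1 / ((m : ℝ) + 1) : ℝ) : ℂ) * (((m + 1) ^ 2 : ℕ) : ℂ) *
        ((1 / ((m : ℝ) + 1) : ℝ) : ℂ) = 1 := by
      have : ((m : ℂ) + 1) ≠ 0 := by exact_mod_cast Nat.succ_ne_zero m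
      push_cast
      field_simp
    generalize 1 / ((m : ℝ) + 1) = δ at hm1 hm2 hp hN ⊢
    have hr : (1 + (δ : ℂ) • x * (u * g)) * (1 + (δ : ℂ) • x * (u * g))⁻¹ = 1 := by
      funext i
      exact mul_inv_cancel₀ (hm1 i)
    generalize (1 + (δ : ℂ) • x * (u * g))⁻¹ = r at hm2 hr ⊢
    have hρe : (δ : ℂ) • x * e = 0 := by rw [smul_mul_assoc, hxe, smul_zero]
    have hz := hC.ofA _ (hch ((δ : ℂ) • x) r ((m + 1) ^ 2) (hs x δ ih hxe hxu hp true) hρe hr)
    generalize (((m + 1) ^ 2 : ℕ) : ℂ) = N at hz hN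
    have hw : (δ : ℂ) • ((1 - e) * g + N • (g * r * ((δ : ℂ) • x) * (u * g))) =
        (δ : ℂ) • ((1 - e) * g) + r * (x * (u * g * g)) := by
      funext i
      simp only [Pi.smul_apply, Pi.add_apply, Pi.mul_apply, smul_eq_mul]
      linear_combination (r i * x i * u i * g i * g i) * hN
    have hze : ((1 - e) * g + N • (g * r * ((δ : ℂ) • x) * (u * g))) * e = 0 := by
      funext i
      have a1 : (1 - e i) * e i = 0 := congrFun hee i
      have a2 : x i * e i = 0 := congrFun hxe i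
      simp only [Pi.smul_apply, Pi.add_apply, Pi.mul_apply, Pi.sub_apply, Pi.one_apply,
        Pi.zero_apply, smul_eq_mul]
      linear_combination g i * a1 + (N * g i * r i * δ * u i * g i) * a2
    rw [← hw] at hm2
    change Gd TP _
    rw [← hw]
    refine hs _ δ hz hze (pow_unit he hze fun i hi h => hm2 i hi ?_) hp
    rw [Pi.smul_apply, h, smul_zero]

end Pool.Agent.MP_bc14f3_gt.Z66
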