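import Pool.Agent.MP_bc14f3_gt.Z66.Defs

/-! Row SCAL of campaign h66z: scaling on the off-circle part. -/

set_option autoImplicit false

namespace Pool.Agent.MP_bc14f3_gt.Z66

open Filter Topology Polynomial

-- BEGIN
theorem scal_row : SCAL_s := by
  intro ι _ TP u v g e hC hD ha x c hx _ _ hc
  have hau : IsUnit (1 + v) := Pi.isUnit_iff.2 fun i => isUnit_iff_ne_zero.2 (hD.ne i)
  have h0 : Tendsto (fun t : ℝ => (t : ℂ)) (𝓝[>] 0) (𝓝 0) := by
    have h : Tendsto (fun t : ℝ => (t : ℂ)) (𝓝 0) (𝓝 ((0 : ℝ) : ℂ)) :=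
      Complex.continuous_ofReal.tendsto 0
    rw [Complex.ofReal_zero] at h
    exact h.mono_left nhdsWithin_le_nhds
  have h1 : Tendsto (fun t : ℝ => x + (t : ℂ) • (1 + v)) (𝓝[>] 0) (𝓝 x) := by
    have h := (h0.smul_const (1 + v)).const_add x
    rwa [zero_smul, add_zero] at h
  have h2 : ∀ᶠ t : ℝ in 𝓝[>] 0, ∀ i, (x + (t : ℂ) • (1 + v)) i ≠ 0 := by
    refine eventually_all.2 fun i => ?_
    by_cases hi : x i = 0
    · filter_upwards [self_mem_nhdsWithin] with t ht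
      have ht' : (t : ℂ) ≠ 0 := Complex.ofReal_ne_zero.2 (ne_of_gt ht)
      have : (x + (t : ℂ) • (1 + v)) i = t * (1 + v i) := by simp [hi, mul_add]
      rw [this]
      exact mul_ne_zero ht' (hD.ne i)
    · exact (tendsto_pi_nhds.1 h1 i).eventually_ne hi
  refine hC.cls.mem_of_tendsto (h1.const_smul (c : ℂ)) ?_
  filter_upwards [h2, self_mem_nhdsWithin] with t ht ht0
  exact hC.smul _ c (hC.add _ _ hx (hC.smul _ t ha hau ht0))
    (Pi.isUnit_iff.2 fun i => isUnit_iff_ne_zero.2 (ht i)) hc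

end Pool.Agent.MP_bc14f3_gt.Z66
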