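import Pool.Agent.MP_bc14f3_gt.Z66.Defs

set_option autoImplicit false

namespace Pool.Agent.MP_bc14f3_gt.Z66

open scoped QuadraticAlgebra

noncomputable section

theorem set_root (b : ℂ) : ∃ u : ℂ, u ^ 2 - b * u + 1 = 0 ∧ 1 ≤ ‖u‖ := by
  obtain ⟨d, hd'⟩ := IsAlgClosed.exists_eq_mul_self (b ^ 2 - 4)
  have hd := hd'.symm
  have h1 : ((b + d) / 2) * ((b - d) / 2) = 1 := by linear_combination (-1 / 4) * hd
  have h2 : ‖(b + d) / 2‖ * ‖(b - d) / 2‖ = 1 := by rw [← norm_mul, h1, norm_one]
  by_cases h : 1 ≤ ‖(b + d) / 2‖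
  · exact ⟨_, by linear_combination (1 / 4) * hd, h⟩
  · refine ⟨(b - d) / 2, by linear_combination (1 / 4) * hd, ?_⟩
    by_contra h'
    push Not at h h'
    nlinarith [norm_nonneg ((b + d) / 2), norm_nonneg ((b - d) / 2)]

/-- Evaluation of the quadratic algebra at the chosen roots. -/
def setPhi {K : Type} [Field K] (b : K) (u : (K →+* ℂ) → ℂ)
    (hu : ∀ σ : K →+* ℂ, u σ ^ 2 - σ b * u σ + 1 = 0) :
    QuadraticAlgebra K (-1) b →+* ((K →+* ℂ) → ℂ) where
  toFun x := fun σ => σ x.re + σ x.im * u σ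
  map_one' := by
    funext σ
    simp
  map_mul' x y := by
    funext σ
    simp only [QuadraticAlgebra.re_mul, QuadraticAlgebra.im_mul, map_add, map_mul, map_neg, map_one,
      Pi.mul_apply]
    linear_combination (-(σ x.im * σ y.im)) * hu σ
  map_zero' := by
    funext σ
    simp
  map_add' x y := by
    funext σ
    simp only [QuadraticAlgebra.re_add, QuadraticAlgebra.im_add, map_add, Pi.add_apply]
    ring

theorem set_row (hD : DUAL_s) : SET_s := by
  intro K _ _ η hη
  by_cases hA : ∃ r : K, r ^ 2 - (η - 2) * r + 1 = 0 ∧ ∀ σ : K →+* ℂ, 1 ≤ ‖σ r‖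
  · obtain ⟨r, hr, hs⟩ := hA
    obtain ⟨σ₀⟩ : Nonempty (K →+* ℂ) := inferInstance
    refine ⟨K, inferInstance, RingHom.pi fun σ => σ, RingHom.id K, r, η - 2 - r,
      by linear_combination -hr, by simp only [RingHom.id_apply]; ring, fun x σ => rfl, fun x hx => ?_, hs, fun κ ρ _ => ?_⟩
    · refine IsUnit.mk0 x ?_
      rintro rfl
      simp at hx
    · have h1 : 1 + (η - 2 - r) ≠ 0 := fun h => hη (by linear_combination (1 + r) * h + hr)
      exact ⟨ρ / (1 + (η - 2 - r)), by simp only [RingHom.id_apply]; field_simp⟩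
  · choose u hu hn using fun σ : K →+* ℂ => set_root (σ (η - 2))
    obtain ⟨σ₀⟩ : Nonempty (K →+* ℂ) := inferInstance
    have huv : (⟨0, 1⟩ : QuadraticAlgebra K (-1) (η - 2)) * ⟨η - 2, -1⟩ = 1 := by
      ext <;> simp
    have he : algebraMap K (QuadraticAlgebra K (-1) (η - 2)) η = ⟨0, 1⟩ + 2 + ⟨η - 2, -1⟩ := by
      ext <;> simp [QuadraticAlgebra.re_ofNat, QuadraticAlgebra.im_ofNat]
    refine ⟨QuadraticAlgebra K (-1) (η - 2), inferInstance, setPhi (η - 2) u hu, algebraMap K _,
      ⟨0, 1⟩, ⟨η - 2, -1⟩, huv, he, fun x σ => by simp [setPhi], fun x hx => ?_,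
      fun σ => by simpa [setPhi] using hn σ, fun κ ρ H => ?_⟩
    · have hx' : ∀ σ : K →+* ℂ, σ x.re + σ x.im * u σ ≠ 0 := fun σ =>
        (Pi.isUnit_iff.1 hx σ).ne_zero
      have hN : x.re ^ 2 + (η - 2) * x.re * x.im + x.im ^ 2 ≠ 0 := by
        intro h0
        by_cases hq : x.im = 0
        · have hp : x.re = 0 := by simpa [hq] using h0
          exact hx' σ₀ (by simp [hp, hq])
        · refine hA ⟨η - 2 + x.re / x.im, by field_simp; linear_combination h0, fun σ => ?_⟩
          have hq' : σ x.im ≠ 0 := (map_ne_zero σ).2 hq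
          have h1 := congrArg σ h0
          simp only [map_add, map_mul, map_pow, map_zero] at h1
          have h2 : (σ x.re + σ x.im * u σ) * (σ x.re + σ x.im * (σ (η - 2) - u σ)) = 0 := by
            linear_combination h1 - σ x.im ^ 2 * hu σ
          have h3 := (mul_eq_zero.1 h2).resolve_left (hx' σ)
          have h4 : σ (η - 2 + x.re / x.im) = u σ := by
            rw [map_add, map_div₀]
            field_simp
            linear_combination h3
          rw [h4]
          exact hn σ
      refine QuadraticAlgebra.isUnit_iff_norm_isUnit.2 (IsUnit.mk0 _ fun h => hN ?_)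
      rw [QuadraticAlgebra.norm_def] at h
      linear_combination h
    · have h1 : IsUnit (1 + (⟨0, 1⟩ : QuadraticAlgebra K (-1) (η - 2))) := by
        have h2 : (1 + (⟨0, 1⟩ : QuadraticAlgebra K (-1) (η - 2))) * (1 + ⟨η - 2, -1⟩) =
            algebraMap K _ η := by
          rw [he]
          linear_combination huv
        exact isUnit_of_mul_isUnit_left (h2 ▸ (IsUnit.mk0 η hη).map _)
      have h3 := hD _ (starRingEnd _) _ _ ρ κ huv (by ext <;> simp [starRingEnd_apply])
        (by ext <;> simp [starRingEnd_apply]) h1 H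
      have h4 := congrArg QuadraticAlgebra.re h3
      simp [starRingEnd_apply] at h4
      refine ⟨-ρ.im, ?_⟩
      ext
      · simp
        linear_combination h4
      · simp

end

end Pool.Agent.MP_bc14f3_gt.Z66
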