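import Pool.Agent.MP_bc14f3_gt.Z66.Defs

set_option autoImplicit false

namespace Pool.Agent.MP_bc14f3_gt.Z66

theorem sys_lift {B A : Type} [CommRing B] [CommRing A] (Φ : B →+* A)
    (loc : ∀ x, IsUnit (Φ x) → IsUnit x) (x : B) (r : A) (h : Φ x * r = 1) :
    ∃ s, x * s = 1 ∧ Φ s = r := by
  obtain ⟨s, hs⟩ := (loc x (IsUnit.of_mul_eq_one r h)).exists_right_inv
  refine ⟨s, hs, ?_⟩
  have h1 : Φ x * Φ s = 1 := by rw [← map_mul, hs, map_one]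
  linear_combination (-Φ s) * h + r * h1

theorem sys_row (hCLA : CLA_s) : SYS_s := by
  intro K _ _ η B _ Φ j U V g S hg
  obtain ⟨G, hG, rfl⟩ := sys_lift Φ S.loc (U - 1) g
    (by rw [map_sub, map_one, mul_comm]; exact hg)
  have P : Par (TT U V) U V G := ⟨rfl, rfl, S.uv, by rw [mul_comm]; exact hG⟩
  refine ⟨fun κ => {q | ∃ α β a b, Bot (TT U V) V κ (α, β, a, b) ∧ q = (Φ α, Φ β, Φ a, Φ b)},
    ⟨0, ?_, map_zero Φ⟩, ⟨1 + V, hCLA B U V S.uv, by rw [map_add, map_one]⟩, ?_, ?_, ?_, ?_, ?_⟩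
  · refine ⟨[], 0, 0, fun a b c d h₁ h₂ h₃ h₄ l e₁ e₂ e₃ => ?_⟩
    obtain rfl : c = a := by linear_combination e₁
    obtain rfl : d = b := by linear_combination e₂
    obtain ⟨rfl, rfl⟩ : h₃ = h₁ ∧ h₂ = h₄ := by simpa [tc] using e₃
    exact Run.nil _
  · rintro κ _ _ ⟨x, hx, rfl⟩ ⟨y, hy, rfl⟩
    exact ⟨x + y, Tan.ser hx hy, map_add Φ x y⟩
  · rintro κ _ _ r ⟨x, hx, rfl⟩ ⟨y, hy, rfl⟩ hr
    obtain ⟨s, hs, rfl⟩ := sys_lift Φ S.loc (x + y) r (by rw [map_add]; exact hr)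
    exact ⟨x * y * s, Tan.par hx hy hs, by rw [map_mul, map_mul]⟩
  · intro κ n n' hn hn'
    exact ⟨_, _, _, _, P.base κ n n' hn hn', by
      simp only [map_mul, map_sub, map_pow, map_one, map_zero]⟩
  · rintro κ α β a b _ r n ⟨α', β', a', b', H, e⟩ ⟨x, hx, rfl⟩ hr
    obtain ⟨rfl, rfl, rfl, rfl⟩ : α = Φ α' ∧ β = Φ β' ∧ a = Φ a' ∧ b = Φ b' := by
      simpa only [Prod.mk.injEq] using e
    obtain ⟨s, hs, rfl⟩ := sys_lift Φ S.loc (1 - x * α') r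
      (by rw [map_sub, map_one, map_mul]; exact hr)
    exact ⟨_, _, _, _, P.step H hx n hs, by
      simp only [map_mul, map_sub, map_add, map_pow, map_one]⟩
  · rintro κ α β a b r ⟨α', β', a', b', H, e⟩ hr
    obtain ⟨rfl, rfl, rfl, rfl⟩ : α = Φ α' ∧ β = Φ β' ∧ a = Φ a' ∧ b = Φ b' := by
      simpa only [Prod.mk.injEq] using e
    obtain ⟨s, hs, rfl⟩ := sys_lift Φ S.loc α' r hr
    exact ⟨_, H.top hs, by simp only [map_mul, map_sub]⟩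

end Pool.Agent.MP_bc14f3_gt.Z66
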