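import Pool.Agent.MP_bc14f3_gt.Z66.Defs

set_option autoImplicit false

namespace Pool.Agent.MP_bc14f3_gt.Z66

open Polynomial

theorem cla_row : CLA_s := by
  intro B _ U V huv
  refine ⟨[.cross 0 true, .cross 0 true], 0, 0, fun a b c d h₁ h₂ h₃ h₄ l e₁ e₂ e₃ => ?_⟩
  obtain ⟨rfl, rfl⟩ : h₃ = h₁ ∧ h₂ = h₄ := by simpa [tc] using e₃
  refine Run.cons _ _ _ _ _ (Step.cross true true false a b b c _ _ _ ?_)
    (Run.one (Step.cross true false true b c c d _ _ _ ?_))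
  · simp only [crule, TT, if_true, Bool.false_eq_true, if_false, true_and]
    linear_combination e₁
  · simp only [crule, TT, if_true, true_and]
    linear_combination e₂ - U * e₁ - (b - a) * huv

theorem top_row (hREC : REC_s) (hBAS : BAS_s) (hCHAN : CHAN_s) (hNEG : NEG_s) (hSCAL : SCAL_s)
    (hPOW : POW_s) (hOFF : OFF_s) (hFOUR : FOUR_s) (hSQ : SQ_s) (hSET : SET_s) (hSYS : SYS_s)
    (hDAT : DAT_s) (hGRP : GRP_s) (hFLD : FLD_s) : TOP_s := by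
  intro f α h1 hneg h0 hf
  obtain ⟨K, _, _, η, σ₀, e₀, hη, htop, hint, hσ⟩ := hFLD f α h1 hneg h0 hf
  obtain ⟨B, _, Φ, j, U, V, S⟩ := hSET K η hη
  obtain ⟨g, e, c, D, E⟩ := hDAT K η B Φ j U V S hη htop hσ
  obtain ⟨BP, Y⟩ := hSYS K η B Φ j U V g S D.gu
  have R := hREC _ _ _ _ _ D
  have N := hNEG _ _ _ _ _ _ _ Y D R
  have C := hBAS _ _ _ _ _ _ _ Y D N.2.2
  have Sc := hSCAL _ _ _ _ _ _ C D (C.ofA _ (subset_closure Y.clasp))
  have P := hPOW _ _ _ _ _ _ C D Y.nil (hCHAN _ _ _ _ _ _ _ Y D R) Sc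
  have O := hOFF _ _ _ _ _ _ c C D E Y.nil Sc P
  have A := hSQ _ _ _ _ _ _ C D (hFOUR _ _ _ _ _ _ c C D E Y.clasp N O)
  have hU : IsUnit (U - 1) := S.loc _ (by
    rw [map_sub, map_one]; exact IsUnit.of_mul_eq_one g (by rw [mul_comm]; exact D.gu))
  have Z := hGRP K η B Φ j U V S hη htop hint hU A
  have key := Tan.zero (T := TT U V) (by simp [TT, S.uv]) Z
    ((Pi.evalRingHom (fun _ => ℂ) σ₀).comp Φ) (map_zero _)
  have k1 : Zero (-(Φ U σ₀)) := by simpa [TT] using key true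
  have k2 : Zero (-(Φ V σ₀)) := by simpa [TT] using key false
  have e1 : Φ U σ₀ * Φ V σ₀ = 1 := congrFun D.uv σ₀
  have e2 : Φ U σ₀ + 2 + Φ V σ₀ = 2 - α - α⁻¹ := by
    rw [← e₀, ← S.psi η σ₀, S.eta]
    simp only [map_add, Pi.add_apply, map_ofNat, Pi.ofNat_apply]
  have e3 : α * α⁻¹ = 1 := mul_inv_cancel₀ h0
  have e4 : (α + Φ U σ₀) * (α + Φ V σ₀) = 0 := by linear_combination e1 + α * e2 - e3
  rcases mul_eq_zero.1 e4 with h | h
  · rwa [eq_neg_of_add_eq_zero_left h]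
  · rwa [eq_neg_of_add_eq_zero_left h]

end Pool.Agent.MP_bc14f3_gt.Z66
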