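import Pool.Agent.MP_bc14f3_gt.Z66.R_REC
import Pool.Agent.MP_bc14f3_gt.Z66.R_BAS
import Pool.Agent.MP_bc14f3_gt.Z66.R_CHAN
import Pool.Agent.MP_bc14f3_gt.Z66.R_NEG
import Pool.Agent.MP_bc14f3_gt.Z66.R_SCAL
import Pool.Agent.MP_bc14f3_gt.Z66.R_POW
import Pool.Agent.MP_bc14f3_gt.Z66.R_POS
import Pool.Agent.MP_bc14f3_gt.Z66.R_INT
import Pool.Agent.MP_bc14f3_gt.Z66.R_OFF
import Pool.Agent.MP_bc14f3_gt.Z66.R_FOUR
import Pool.Agent.MP_bc14f3_gt.Z66.R_SQ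
import Pool.Agent.MP_bc14f3_gt.Z66.R_EXA
import Pool.Agent.MP_bc14f3_gt.Z66.R_END
import Pool.Agent.MP_bc14f3_gt.Z66.R_SET
import Pool.Agent.MP_bc14f3_gt.Z66.R_SYS
import Pool.Agent.MP_bc14f3_gt.Z66.R_DAT
import Pool.Agent.MP_bc14f3_gt.Z66.R_GRP
import Pool.Agent.MP_bc14f3_gt.Z66.R_FLD
import Pool.Agent.MP_bc14f3_gt.Z66.R_DUAL
import Pool.Agent.MP_bc14f3_gt.Z66.R_TOP

namespace Pool.Agent.MP_bc14f3_gt.Z66

theorem top : TOP_s :=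
  top_row rec_row bas_row chan_row neg_row scal_row pow_row (off_row pos_row) (four_row int_row)
    sq_row (set_row dual_row) (sys_row cla_row) dat_row (grp_row exa_row end_row cla_row) fld_row

end Pool.Agent.MP_bc14f3_gt.Z66
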