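import Pool.Agent.MP_bc14f3_gt.Z66.Defs

/-! Even powers accumulate at the idempotent. -/

set_option autoImplicit false

namespace Pool.Agent.MP_bc14f3_gt.Z66

open Filter Topology Polynomial

theorem rec_row : REC_s := by
  intro ι _ u v g e hD
  have hz : ∀ i, ∃ z : Circle, e i = 1 → (z : ℂ) = v i := fun i => by
    rcases hD.ind i with h | h
    · exact ⟨⟨v i, mem_sphere_zero_iff_norm.2 h.2⟩, fun _ => rfl⟩
    · exact ⟨1, fun h1 => absurd (h.1.symm.trans h1) zero_ne_one⟩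
  choose z hz using hz
  refine Metric.mem_closure_iff.2 fun ε hε => ?_
  have hO : IsOpen {w : ι → Circle | ∀ i, ‖(w i : ℂ) - 1‖ < ε} := by
    rw [Set.ofPred_forall]
    exact isOpen_iInter_of_finite fun i => isOpen_lt (by fun_prop) continuous_const
  have h1 : ∃ᶠ n : ℕ in atTop, ∀ i, ‖(((z ^ 2) ^ n) i : ℂ) - 1‖ < ε :=
    (mapClusterPt_iff_frequently.1 (mapClusterPt_one_atTop_pow (z ^ 2))) _
      (hO.mem_nhds fun i => by simpa using hε)
  have h2 : ∀ᶠ n : ℕ in atTop, ∀ i, e i = 0 → ‖v i ^ (2 * n)‖ < ε := by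
    refine eventually_all.2 fun i => ?_
    rcases hD.ind i with h | h
    · exact Eventually.of_forall fun n h0 => absurd (h0.symm.trans h.1) zero_ne_one
    · have h3 : ‖v i‖ ^ 2 < 1 := pow_lt_one₀ (norm_nonneg _) h.2 two_ne_zero
      have h4 := tendsto_pow_atTop_nhds_zero_of_lt_one (sq_nonneg _) h3
      filter_upwards [h4.eventually (gt_mem_nhds hε)] with n hn _
      rwa [norm_pow, pow_mul]
  obtain ⟨n, ⟨g1, g2⟩, g3⟩ := ((h1.and_eventually h2).and_eventually (eventually_ge_atTop 1)).exists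
  obtain ⟨m, rfl⟩ : ∃ m, n = m + 1 := ⟨n - 1, by omega⟩
  refine ⟨_, ⟨m, rfl⟩, (dist_pi_lt_iff hε).2 fun i => ?_⟩
  rw [dist_comm, dist_eq_norm]
  show ‖v i ^ (2 * m + 2) - e i‖ < ε
  rcases hD.ind i with h | h
  · have g4 := g1 i
    rw [← pow_mul, Pi.pow_apply, Circle.coe_pow, hz i h.1] at g4
    rw [h.1]
    exact g4
  · rw [h.1, sub_zero]
    exact g2 i h.1

end Pool.Agent.MP_bc14f3_gt.Z66
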