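import Pool.Agent.MP_bc14f3_gt.Z66.Defs

/-! All powers of `η` times the clasp value are limits. -/

set_option autoImplicit false

namespace Pool.Agent.MP_bc14f3_gt.Z66

open Filter Topology Polynomial

theorem sq_unit {ι : Type} {x : ι → ℂ} (h : ∀ i, x i ≠ 0) : IsUnit x :=
  IsUnit.of_mul_eq_one (fun i => (x i)⁻¹) (funext fun i => mul_inv_cancel₀ (h i))

theorem sq_step {ι : Type} [Fintype ι] {TP : Bool → Set (ι → ℂ)} (hC : Cl TP) {a b : ι → ℂ}
    (ha : ∀ i, a i ≠ 0) (hb : ∀ i, b i ≠ 0) (h1 : Gd TP a) (h2 : Gd TP fun i => -a i)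
    (h3 : Gd TP b) : Gd TP fun i => -(a i ^ 2 / b i) := by
  have hc : ∀ i, Tendsto (fun t : ℝ => a i * (t : ℂ) + b i) (𝓝[>] 0) (𝓝 (b i)) := fun i => by
    have h : Continuous fun t : ℝ => a i * (t : ℂ) + b i := by fun_prop
    have h' := (h.tendsto 0).mono_left (nhdsWithin_le_nhds (s := Set.Ioi 0))
    simpa using h'
  have hlim : Tendsto (fun (t : ℝ) (i : ι) => -(a i ^ 2 / (a i * (t : ℂ) + b i))) (𝓝[>] 0)
      (𝓝 fun i => -(a i ^ 2 / b i)) :=
    tendsto_pi_nhds.2 fun i => (tendsto_const_nhds.div (hc i) (hb i)).neg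
  refine hC.cls.mem_of_tendsto hlim ?_
  have hne : ∀ᶠ t : ℝ in 𝓝[>] 0, ∀ i, a i * (t : ℂ) + b i ≠ 0 :=
    eventually_all.2 fun i => (hc i).eventually_ne (hb i)
  filter_upwards [hne, self_mem_nhdsWithin] with t ht ht0
  have t0 : 0 < t := ht0
  have t1 : (t : ℂ) ≠ 0 := by exact_mod_cast t0.ne'
  have g1 := hC.smul b t⁻¹ h3 (sq_unit hb) (inv_pos.2 t0)
  have g2 := hC.par a _ (fun i => (t : ℂ) / (a i * (t : ℂ) + b i)) h1 g1 (funext fun i => by
    have h := ht i
    simp only [Pi.mul_apply, Pi.add_apply, Pi.smul_apply, smul_eq_mul, Pi.one_apply,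
      Complex.ofReal_inv]
    field_simp)
  have g3 := hC.add _ _ g2 h2
  have e : (a * ((t⁻¹ : ℝ) : ℂ) • b * fun i => (t : ℂ) / (a i * (t : ℂ) + b i)) + (fun i => -a i) =
      fun i => -((t : ℂ) * a i ^ 2 / (a i * (t : ℂ) + b i)) := funext fun i => by
    have h := ht i
    simp only [Pi.mul_apply, Pi.add_apply, Pi.smul_apply, smul_eq_mul, Complex.ofReal_inv]
    field_simp
    ring
  rw [e] at g3
  have g4 := hC.smul _ t⁻¹ g3 (sq_unit fun i =>
    neg_ne_zero.2 (div_ne_zero (mul_ne_zero t1 (pow_ne_zero 2 (ha i))) (ht i))) (inv_pos.2 t0)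
  have e2 : (((t⁻¹ : ℝ) : ℂ) • fun i => -((t : ℂ) * a i ^ 2 / (a i * (t : ℂ) + b i))) =
      fun i => -(a i ^ 2 / (a i * (t : ℂ) + b i)) := funext fun i => by
    have h := ht i
    simp only [Pi.smul_apply, smul_eq_mul, Complex.ofReal_inv]
    field_simp
  rw [e2] at g4
  exact g4

theorem sq_row : SQ_s := by
  intro ι _ TP u v g e hC hD hF
  have huv : ∀ i, u i * v i = 1 := fun i => congrFun hD.uv i
  have hv := hD.ne
  have hη : ∀ i, u i + 2 + v i = (1 + u i) * (1 + v i) := fun i => by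
    linear_combination -huv i
  have hu : ∀ i, 1 + u i ≠ 0 := fun i h => hv i (by linear_combination v i * h - huv i)
  have hη0 : ∀ i, u i + 2 + v i ≠ 0 := fun i => by
    rw [hη]
    exact mul_ne_zero (hu i) (hv i)
  let P : ℤ → Prop := fun k => Gd TP (fun i => (1 + v i) * (u i + 2 + v i) ^ k) ∧
    Gd TP (fun i => -((1 + v i) * (u i + 2 + v i) ^ k))
  have hne : ∀ (k : ℤ) i, (1 + v i) * (u i + 2 + v i) ^ k ≠ 0 := fun k i =>
    mul_ne_zero (hv i) (zpow_ne_zero k (hη0 i))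
  have step : ∀ k l m : ℤ, m + l = k + k → P k → P l → P m := fun k l m hm hk hl => by
    have e : ∀ i, ((1 + v i) * (u i + 2 + v i) ^ k) ^ 2 / ((1 + v i) * (u i + 2 + v i) ^ l) =
        (1 + v i) * (u i + 2 + v i) ^ m := fun i => by
      rw [div_eq_iff (hne l i)]
      have h1 : (u i + 2 + v i) ^ m * (u i + 2 + v i) ^ l =
          (u i + 2 + v i) ^ k * (u i + 2 + v i) ^ k := by
        rw [← zpow_add₀ (hη0 i), ← zpow_add₀ (hη0 i), hm]
      linear_combination -(1 + v i) ^ 2 * h1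
    have h1 := sq_step hC (hne k) (hne l) hk.1 hk.2 hl.1
    have h2 := sq_step hC (hne k) (fun i => neg_ne_zero.2 (hne l i)) hk.1 hk.2 hl.2
    simp only [div_neg, neg_neg, e] at h1 h2
    exact ⟨h2, h1⟩
  have p0 : P 0 := by
    simp only [P, zpow_zero, mul_one]
    exact ⟨hF.1, hF.2.1⟩
  have p1 : P (-1) := by
    have e : ∀ i, (1 + v i) * (u i + 2 + v i) ^ (-1 : ℤ) = (1 + u i)⁻¹ := fun i => by
      have h1 := hu i
      have h2 := hv i
      rw [zpow_neg_one, hη]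
      field_simp
    simp only [P, e]
    exact ⟨hF.2.2.1, hF.2.2.2⟩
  have all : ∀ k : ℤ, P k ∧ P (k - 1) := fun k => by
    induction k using Int.induction_on with
    | zero => exact ⟨p0, by simpa using p1⟩
    | succ n ih =>
      exact ⟨step n (n - 1) _ (by ring) ih.1 ih.2, by simpa using ih.1⟩
    | pred n ih => exact ⟨ih.2, step (-n - 1) (-n) _ (by ring) ih.2 ih.1⟩
  exact fun k => (all k).1

end Pool.Agent.MP_bc14f3_gt.Z66
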